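import Pool.Agent.Run7.h426.OrbitArg

/-!
# An upper bound for the number of automorphisms of a connected regular graph
-/

namespace Run7.h426.ThreeWeight

open SimpleGraph Function

open scoped Classical Nat

variable {V : Type*} [Fintype V] {G : SimpleGraph V}

/-- the number of automorphisms with prescribed values on `D` -/
noncomputable def cnt (G : SimpleGraph V) (D : Finset V) (g : V → V) : ℕ :=
  ((autF G).filter (fun f => ∀ v ∈ D, f v = g v)).card

lemma two_pow_step (r : ℕ) : 2 * (r + 1) ^ (r + 1) ≤ (r + 1 + 1) ^ (r + 1) := by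
  have h := one_add_mul_le_pow (R := ℚ) (a := 1 / (r + 1)) (by
    have : (0 : ℚ) ≤ 1 / (r + 1) := by positivity
    linarith) (r + 1)
  have hr : (0 : ℚ) < (r : ℚ) + 1 := by positivity
  have h2 : (1 : ℚ) + ((r + 1 : ℕ) : ℚ) * (1 / (r + 1)) = 2 := by
    push_cast; field_simp; norm_num
  rw [h2] at h
  have h3 : (1 : ℚ) + 1 / (r + 1) = (r + 1 + 1) / (r + 1) := by field_simp
  rw [h3, div_pow, le_div_iff₀ (by positivity)] at h
  exact_mod_cast h

lemma fact_pow (r : ℕ) : r ! * 2 ^ r ≤ (r + 1) ^ r := by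
  induction r with
  | zero => simp
  | succ r ih =>
    calc (r + 1)! * 2 ^ (r + 1) = 2 * (r + 1) * (r ! * 2 ^ r) := by
          rw [Nat.factorial_succ, pow_succ]; ring
      _ ≤ 2 * (r + 1) * (r + 1) ^ r := Nat.mul_le_mul_left _ ih
      _ = 2 * (r + 1) ^ (r + 1) := by rw [pow_succ]; ring
      _ ≤ (r + 1 + 1) ^ (r + 1) := two_pow_step r

lemma fact_pow' {r d : ℕ} (h : r + 1 ≤ d) : r ! * 2 ^ r ≤ d ^ r :=
  (fact_pow r).trans (Nat.pow_le_pow_left h r)

/-- one more vertex -/
lemma cnt_step {D : Finset V} {u v : V} (hu : u ∈ D) (huv : G.Adj u v) (hv : v ∉ D) (g : V → V)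
    (B : ℕ) (hB : ∀ g', cnt G (insert v D) g' ≤ B) :
    cnt G D g ≤ (G.neighborFinset u \ D).card * B := by
  by_cases hne : ((autF G).filter (fun f => ∀ v ∈ D, f v = g v)) = ∅
  · unfold cnt
    rw [hne]
    simp
  · obtain ⟨f₀, hf₀⟩ := Finset.nonempty_iff_ne_empty.2 hne
    rw [Finset.mem_filter, mem_autF] at hf₀
    obtain ⟨⟨i1, i2⟩, i3⟩ := hf₀
    have hsurj : Surjective f₀ := Finite.injective_iff_surjective.1 i1
    have hsub : ((autF G).filter (fun f => ∀ v ∈ D, f v = g v)) ⊆
        ((G.neighborFinset u \ D).image f₀).biUnion (fun y =>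
          (autF G).filter (fun f => ∀ w ∈ insert v D, f w = (update g v y) w)) := by
      intro f hf
      rw [Finset.mem_filter, mem_autF] at hf
      obtain ⟨⟨j1, j2⟩, j3⟩ := hf
      rw [Finset.mem_biUnion]
      refine ⟨f v, ?_, ?_⟩
      · rw [Finset.mem_image]
        obtain ⟨w, hw⟩ := hsurj (f v)
        refine ⟨w, ?_, hw⟩
        rw [Finset.mem_sdiff, mem_neighborFinset]
        constructor
        · rw [← i2, hw, i3 u hu, ← j3 u hu, j2]
          exact huv
        · intro hwD
          rw [i3 w hwD, ← j3 w hwD] at hw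
          exact hv ((j1 hw) ▸ hwD)
      · rw [Finset.mem_filter, mem_autF]
        refine ⟨⟨j1, j2⟩, fun w hw => ?_⟩
        rw [Finset.mem_insert] at hw
        by_cases hwv : w = v
        · subst hwv; rw [update_self]
        · rw [update_of_ne hwv]
          rcases hw with h | h
          · exact absurd h hwv
          · exact j3 w h
    unfold cnt
    calc _ ≤ _ := Finset.card_le_card hsub
      _ ≤ ((G.neighborFinset u \ D).image f₀).card * B := by
        apply Finset.card_biUnion_le_card_mul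
        intro y _
        exact hB _
      _ ≤ (G.neighborFinset u \ D).card * B := Nat.mul_le_mul_right _ Finset.card_image_le

lemma cnt_univ_le (g : V → V) : cnt G Finset.univ g ≤ 1 := by
  unfold cnt
  rw [Finset.card_le_one]
  intro a ha b hb
  rw [Finset.mem_filter] at ha hb
  funext v
  rw [ha.2 v (Finset.mem_univ v), hb.2 v (Finset.mem_univ v)]

omit [Fintype V] in
lemma exists_boundary (hconn : G.Connected) {D : Finset V} {u x : V} (hu : u ∈ D) (hx : x ∉ D) :
    ∃ a b, a ∈ D ∧ b ∉ D ∧ G.Adj a b := by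
  obtain ⟨p⟩ := hconn.preconnected u x
  obtain ⟨d, -, h1, h2⟩ := p.exists_boundary_dart (D : Set V) hu hx
  exact ⟨d.fst, d.snd, h1, h2, d.adj⟩

/-- the exploration bound -/
lemma cnt_bound (hconn : G.Connected) {d : ℕ} (hd : ∀ v, G.degree v = d) (hd1 : 1 ≤ d) :
    ∀ (k : ℕ) (D : Finset V), D.card + k = Fintype.card V →
    ∀ u ∈ D, (∀ w ∈ D, w ≠ u → ∃ v ∈ D, G.Adj w v) → ∀ (g : V → V) (r s : ℕ),
    (G.neighborFinset u \ D).card = r → r + s = k →
    cnt G D g * 2 ^ s ≤ r ! * d ^ s := by
  intro k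
  induction k with
  | zero =>
    intro D hD u hu _ g r s hr hrs
    have hr0 : r = 0 := by omega
    have hs0 : s = 0 := by omega
    subst hr0 hs0
    have hDu : D = Finset.univ := by
      rw [← Finset.card_eq_iff_eq_univ]; omega
    rw [hDu]
    simpa using cnt_univ_le (G := G) g
  | succ k ih =>
    -- the case of a vertex with an undiscovered neighbour
    have sub : ∀ (D : Finset V), D.card + (k + 1) = Fintype.card V →
        ∀ u ∈ D, (∀ w ∈ D, w ≠ u → ∃ v ∈ D, G.Adj w v) → ∀ (g : V → V) (r s : ℕ),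
        (G.neighborFinset u \ D).card = r + 1 → r + 1 + s = k + 1 →
        cnt G D g * 2 ^ s ≤ (r + 1)! * d ^ s := by
      intro D hD u hu hinv g r s hr hrs
      obtain ⟨v, hv⟩ : (G.neighborFinset u \ D).Nonempty := by
        rw [← Finset.card_pos]; omega
      rw [Finset.mem_sdiff, mem_neighborFinset] at hv
      obtain ⟨huv, hvD⟩ := hv
      have hsd : G.neighborFinset u \ insert v D = (G.neighborFinset u \ D).erase v := by
        ext w
        simp only [Finset.mem_sdiff, Finset.mem_insert, Finset.mem_erase, mem_neighborFinset]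
        tauto
      have hcard : (G.neighborFinset u \ insert v D).card = r := by
        rw [hsd, Finset.card_erase_of_mem (by
          rw [Finset.mem_sdiff, mem_neighborFinset]; exact ⟨huv, hvD⟩), hr]
        rfl
      have hinv' : ∀ w ∈ insert v D, w ≠ u → ∃ v' ∈ insert v D, G.Adj w v' := by
        intro w hw hwu
        rw [Finset.mem_insert] at hw
        rcases hw with rfl | hw
        · exact ⟨u, Finset.mem_insert_of_mem hu, huv.symm⟩
        · obtain ⟨v', h1, h2⟩ := hinv w hw hwu
          exact ⟨v', Finset.mem_insert_of_mem h1, h2⟩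
      have hIH : ∀ g', cnt G (insert v D) g' * 2 ^ s ≤ r ! * d ^ s := by
        intro g'
        exact ih (insert v D) (by rw [Finset.card_insert_of_notMem hvD]; omega) u
          (Finset.mem_insert_of_mem hu) hinv' g' r s hcard (by omega)
      -- pass to the maximum
      have hB : ∀ g', cnt G (insert v D) g' ≤ (r ! * d ^ s) / 2 ^ s := by
        intro g'
        rw [Nat.le_div_iff_mul_le (by positivity)]
        exact hIH g'
      have h1 := cnt_step hu huv hvD g _ hB
      rw [hr] at h1
      calc cnt G D g * 2 ^ s ≤ (r + 1) * ((r ! * d ^ s) / 2 ^ s) * 2 ^ s :=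
            Nat.mul_le_mul_right _ h1
        _ = (r + 1) * ((r ! * d ^ s) / 2 ^ s * 2 ^ s) := by ring
        _ ≤ (r + 1) * (r ! * d ^ s) := Nat.mul_le_mul_left _ (Nat.div_mul_le_self _ _)
        _ = (r + 1)! * d ^ s := by rw [Nat.factorial_succ]; ring
    intro D hD u hu hinv g r s hr hrs
    rcases r with _ | r
    · -- switch to another vertex
      have hx : ∃ x, x ∉ D := by
        by_contra hcon
        push Not at hcon
        have : D = Finset.univ := Finset.eq_univ_iff_forall.2 hcon
        rw [this, Finset.card_univ] at hD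
        omega
      obtain ⟨x, hx⟩ := hx
      obtain ⟨a, b, ha, hb, hab⟩ := exists_boundary hconn hu hx
      have hau : a ≠ u := by
        rintro rfl
        rw [Finset.card_eq_zero] at hr
        have : b ∈ G.neighborFinset a \ D := by
          rw [Finset.mem_sdiff, mem_neighborFinset]; exact ⟨hab, hb⟩
        rw [hr] at this
        exact absurd this (Finset.notMem_empty _)
      obtain ⟨a', ha', haa'⟩ := hinv a ha hau
      obtain ⟨r', hr'⟩ : ∃ r', (G.neighborFinset a \ D).card = r' + 1 := by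
        have : 0 < (G.neighborFinset a \ D).card := Finset.card_pos.2 ⟨b, by
          rw [Finset.mem_sdiff, mem_neighborFinset]; exact ⟨hab, hb⟩⟩
        exact ⟨(G.neighborFinset a \ D).card - 1, by omega⟩
      have hr'd : r' + 1 + 1 ≤ d := by
        have h1 : G.neighborFinset a \ D ⊆ (G.neighborFinset a).erase a' := by
          intro w hw
          rw [Finset.mem_sdiff] at hw
          rw [Finset.mem_erase]
          refine ⟨?_, hw.1⟩
          rintro rfl
          exact hw.2 ha'
        have h2 := Finset.card_le_card h1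
        rw [Finset.card_erase_of_mem (by rw [mem_neighborFinset]; exact haa'),
          card_neighborFinset_eq_degree, hd, hr'] at h2
        omega
      have hr'k : r' + 1 ≤ k + 1 := by
        have h1 : Disjoint (G.neighborFinset a \ D) D := Finset.sdiff_disjoint
        have h2 := Finset.card_le_univ ((G.neighborFinset a \ D) ∪ D)
        rw [Finset.card_union_of_disjoint h1, hr'] at h2
        omega
      have hinv' : ∀ w ∈ D, w ≠ a → ∃ v ∈ D, G.Adj w v := by
        intro w hw hwa
        by_cases hwu : w = u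
        · subst hwu
          have h1 : 0 < (G.neighborFinset w).card := by
            rw [card_neighborFinset_eq_degree, hd]; omega
          obtain ⟨v, hv⟩ := Finset.card_pos.1 h1
          refine ⟨v, ?_, (mem_neighborFinset _ _ _).1 hv⟩
          by_contra hvD
          rw [Finset.card_eq_zero] at hr
          have : v ∈ G.neighborFinset w \ D := Finset.mem_sdiff.2 ⟨hv, hvD⟩
          rw [hr] at this
          exact absurd this (Finset.notMem_empty _)
        · exact hinv w hw hwu
      obtain ⟨s', hs'⟩ : ∃ s', r' + 1 + s' = k + 1 := ⟨k + 1 - (r' + 1), by omega⟩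
      have h1 := sub D hD a ha hinv' g r' s' hr' hs'
      have h2 := fact_pow' hr'd
      have hs : s = r' + 1 + s' := by omega
      rw [hs, Nat.factorial_zero, one_mul]
      calc cnt G D g * 2 ^ (r' + 1 + s') = cnt G D g * 2 ^ s' * 2 ^ (r' + 1) := by
            rw [pow_add]; ring
        _ ≤ (r' + 1)! * d ^ s' * 2 ^ (r' + 1) := Nat.mul_le_mul_right _ h1
        _ = (r' + 1)! * 2 ^ (r' + 1) * d ^ s' := by ring
        _ ≤ d ^ (r' + 1) * d ^ s' := Nat.mul_le_mul_right _ h2
        _ = d ^ (r' + 1 + s') := by rw [← pow_add]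
    · exact sub D hD u hu hinv g r s hr hrs

/-- the bound for the number of automorphisms -/
theorem aut_small (hconn : G.Connected) {d : ℕ} (hd : ∀ v, G.degree v = d) (hd1 : 1 ≤ d)
    {s : ℕ} (hs : Fintype.card V = d + 1 + s) :
    (autF G).card * 2 ^ s ≤ Fintype.card V * d ! * d ^ s := by
  obtain ⟨v₀⟩ := hconn.nonempty
  have h1 : ∀ g, cnt G {v₀} g ≤ (d ! * d ^ s) / 2 ^ s := by
    intro g
    rw [Nat.le_div_iff_mul_le (by positivity)]
    refine cnt_bound hconn hd hd1 (d + s) {v₀} (by rw [Finset.card_singleton]; omega) v₀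
      (Finset.mem_singleton_self v₀) ?_ g d s ?_ rfl
    · intro w hw hw'
      exact absurd (Finset.mem_singleton.1 hw) hw'
    · have : G.neighborFinset v₀ \ {v₀} = G.neighborFinset v₀ := by
        ext w
        rw [Finset.mem_sdiff, Finset.mem_singleton, mem_neighborFinset]
        constructor
        · exact fun h => h.1
        · exact fun h => ⟨h, h.ne'⟩
      rw [this, card_neighborFinset_eq_degree, hd]
  have hsub : autF G ⊆ (Finset.univ : Finset V).biUnion (fun y =>
      (autF G).filter (fun f => ∀ v ∈ ({v₀} : Finset V), f v = (fun _ => y) v)) := by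
    intro f hf
    rw [Finset.mem_biUnion]
    refine ⟨f v₀, Finset.mem_univ _, Finset.mem_filter.2 ⟨hf, ?_⟩⟩
    intro v hv
    rw [Finset.mem_singleton.1 hv]
  have h2 : (autF G).card ≤ Fintype.card V * ((d ! * d ^ s) / 2 ^ s) := by
    calc _ ≤ _ := Finset.card_le_card hsub
      _ ≤ (Finset.univ : Finset V).card * ((d ! * d ^ s) / 2 ^ s) := by
        apply Finset.card_biUnion_le_card_mul
        intro y _
        exact h1 _
      _ = _ := by rw [Finset.card_univ]
  calc (autF G).card * 2 ^ s ≤ Fintype.card V * ((d ! * d ^ s) / 2 ^ s) * 2 ^ s :=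
        Nat.mul_le_mul_right _ h2
    _ = Fintype.card V * ((d ! * d ^ s) / 2 ^ s * 2 ^ s) := by ring
    _ ≤ Fintype.card V * (d ! * d ^ s) := Nat.mul_le_mul_left _ (Nat.div_mul_le_self _ _)
    _ = _ := by ring

/-! ## The numerical inequality -/

lemma base_ineq : ∀ d : ℕ, 3 ≤ d → ((d + 1) * d !) ^ 4 < 3 ^ ((d + 1) * d) := by
  intro d hd
  induction d, hd using Nat.le_induction with
  | base => decide
  | succ d hd ih =>
    have h1 : (d + 2) ^ 4 ≤ 3 ^ (2 * (d + 1)) := by
      clear ih
      induction d, hd using Nat.le_induction with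
      | base => norm_num
      | succ d hd ih =>
        have e : (3 : ℕ) ^ (2 * (d + 1 + 1)) = 3 ^ (2 * (d + 1)) * 9 := by
          rw [show 2 * (d + 1 + 1) = 2 * (d + 1) + 2 by ring, pow_add]; norm_num
        rw [e]
        have h2 : (d + 1 + 2) ^ 4 ≤ (d + 2) ^ 4 * 9 := by
          have : d + 1 + 2 ≤ (d + 2) * 3 / 2 := by omega
          have h3 : 2 * (d + 1 + 2) ≤ 3 * (d + 2) := by omega
          have h4 := Nat.pow_le_pow_left h3 4
          rw [mul_pow, mul_pow] at h4
          have h5 : 0 < (d + 2) ^ 4 := by positivity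
          norm_num at h4
          omega
        exact h2.trans (Nat.mul_le_mul_right 9 ih)
    calc ((d + 1 + 1) * (d + 1)!) ^ 4 = (d + 2) ^ 4 * ((d + 1) * d !) ^ 4 := by
          rw [Nat.factorial_succ]; ring
      _ < (d + 2) ^ 4 * 3 ^ ((d + 1) * d) := by
          exact Nat.mul_lt_mul_of_pos_left ih (by positivity)
      _ ≤ 3 ^ (2 * (d + 1)) * 3 ^ ((d + 1) * d) := Nat.mul_le_mul_right _ h1
      _ = 3 ^ ((d + 1 + 1) * (d + 1)) := by
          rw [← pow_add]; congr 1; ring

lemma quart (d : ℕ) (hd : 1 ≤ d) : (d + 1) ^ 4 ≤ 16 * 3 ^ d := by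
  rcases Nat.lt_or_ge d 4 with h | h
  · interval_cases d <;> norm_num
  · induction d, h using Nat.le_induction with
    | base => norm_num
    | succ d h ih =>
      have ih' := ih (by omega)
      have h3 : 5 * (d + 1 + 1) ≤ 6 * (d + 1) := by omega
      have h4 := Nat.pow_le_pow_left h3 4
      rw [mul_pow, mul_pow] at h4
      norm_num at h4
      have h5 : (d + 1 + 1) ^ 4 ≤ 3 * (d + 1) ^ 4 := by omega
      calc (d + 1 + 1) ^ 4 ≤ 3 * (d + 1) ^ 4 := h5
        _ ≤ 3 * (16 * 3 ^ d) := Nat.mul_le_mul_left 3 ih'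
        _ = 16 * 3 ^ (d + 1) := by rw [pow_succ]; ring

/-- the step in the number of vertices -/
lemma step_ineq {d s : ℕ} (hd : 1 ≤ d)
    (h : ((d + 1 + s) * d ! * d ^ s) ^ 4 < 3 ^ ((d + 1 + s) * d) * (2 ^ s) ^ 4) :
    ((d + 1 + (s + 1)) * d ! * d ^ (s + 1)) ^ 4 <
      3 ^ ((d + 1 + (s + 1)) * d) * (2 ^ (s + 1)) ^ 4 := by
  have h1 : ((d + 1 + (s + 1)) * d) ^ 4 ≤ (d + 1 + s) ^ 4 * (16 * 3 ^ d) := by
    have h2 : (d + 1 + (s + 1)) * d ≤ (d + 1 + s) * (d + 1) := by nlinarith
    calc ((d + 1 + (s + 1)) * d) ^ 4 ≤ ((d + 1 + s) * (d + 1)) ^ 4 := Nat.pow_le_pow_left h2 4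
      _ = (d + 1 + s) ^ 4 * (d + 1) ^ 4 := by rw [mul_pow]
      _ ≤ (d + 1 + s) ^ 4 * (16 * 3 ^ d) := Nat.mul_le_mul_left _ (quart d hd)
  calc ((d + 1 + (s + 1)) * d ! * d ^ (s + 1)) ^ 4 =
        ((d + 1 + (s + 1)) * d) ^ 4 * (d ! * d ^ s) ^ 4 := by rw [pow_succ]; ring
    _ ≤ (d + 1 + s) ^ 4 * (16 * 3 ^ d) * (d ! * d ^ s) ^ 4 := Nat.mul_le_mul_right _ h1
    _ = (16 * 3 ^ d) * ((d + 1 + s) * d ! * d ^ s) ^ 4 := by ring
    _ < (16 * 3 ^ d) * (3 ^ ((d + 1 + s) * d) * (2 ^ s) ^ 4) :=
        Nat.mul_lt_mul_of_pos_left h (by positivity)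
    _ = 3 ^ ((d + 1 + (s + 1)) * d) * (2 ^ (s + 1)) ^ 4 := by
        have e1 : (d + 1 + (s + 1)) * d = d + (d + 1 + s) * d := by ring
        rw [e1, pow_add, pow_succ 2 s]
        ring

lemma num_ineq (d s : ℕ) (hd : 1 ≤ d) (h1 : ¬ (d = 1 ∧ s = 0)) (h2 : ¬ (d = 2 ∧ s = 0)) :
    ((d + 1 + s) * d ! * d ^ s) ^ 4 < 3 ^ ((d + 1 + s) * d) * (2 ^ s) ^ 4 := by
  rcases Nat.lt_or_ge d 3 with h | h
  · have hs : 1 ≤ s := by
      by_contra hcon
      have : s = 0 := by omega
      have : d = 1 ∨ d = 2 := by omega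
      omega
    have hd' : d = 1 ∨ d = 2 := by omega
    induction s, hs using Nat.le_induction with
    | base =>
      rcases hd' with rfl | rfl <;> decide
    | succ s hs ih => exact step_ineq hd (ih (by omega) (by omega))
  · induction s with
    | zero =>
      have := base_ineq d h
      simpa using this
    | succ s ih => exact step_ineq hd (ih (by omega) (by omega))

end Run7.h426.ThreeWeight
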