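import Pool.Agent.Run7.h426.AutBound

/-!
# Connected uniquely 3-weight colourable graphs
-/

namespace Run7.h426.ThreeWeight

open SimpleGraph Function

open scoped Classical

variable {V : Type*} [Fintype V] {G : SimpleGraph V}

/-- vertex transitivity -/
lemma transitive (hconn : G.Connected) (hU : UniquelyThreeWeightColourable G) (u v : V) :
    ∃ φ : G ≃g G, φ u = v := by
  let O : V → Prop := fun w => ∃ φ : G ≃g G, φ u = w
  have hO : ∀ (φ : G ≃g G) w, O (φ w) ↔ O w := by
    intro φ w
    constructor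
    · rintro ⟨ψ, hψ⟩
      exact ⟨ψ.trans φ.symm, by simp [hψ]⟩
    · rintro ⟨ψ, hψ⟩
      exact ⟨ψ.trans φ, by simp [hψ]⟩
  have h0 : O u := ⟨Iso.refl, rfl⟩
  by_contra hv
  obtain ⟨p⟩ := hconn.preconnected u v
  obtain ⟨d, -, h1, h2⟩ := p.exists_boundary_dart {w | O w} h0 hv
  exact h2 (adj_orbit hU O hO d.adj h1)

lemma regular (hconn : G.Connected) (hU : UniquelyThreeWeightColourable G) (u v : V) :
    G.degree u = G.degree v := by
  obtain ⟨φ, rfl⟩ := transitive hconn hU u v
  exact (Iso.degree_eq φ u).symm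

/-- a connected uniquely 3-weight colourable graph with an edge has three vertices, all adjacent -/
theorem three_of_unique (hconn : G.Connected) (hU : UniquelyThreeWeightColourable G) {u₀ v₀ : V}
    (hadj : G.Adj u₀ v₀) : Fintype.card V = 3 ∧ ∀ u v, u ≠ v → G.Adj u v := by
  obtain ⟨d, hd⟩ : ∃ d, G.degree u₀ = d := ⟨_, rfl⟩
  have hreg : ∀ v, G.degree v = d := fun v => (regular hconn hU v u₀).trans hd
  have hd1 : 1 ≤ d := by
    rw [← hd, Nat.one_le_iff_ne_zero, ← Nat.pos_iff_ne_zero, degree_pos_iff_exists_adj]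
    exact ⟨v₀, hadj⟩
  have hlt : d < Fintype.card V := by
    rw [← hd]; exact G.degree_lt_card_verts u₀
  obtain ⟨s, hs⟩ : ∃ s, Fintype.card V = d + 1 + s := ⟨Fintype.card V - (d + 1), by omega⟩
  have h1 := aut_large hU
  have h2 := aut_small hconn hreg hd1 hs
  have h3 : Fintype.card V * d = 2 * G.edgeFinset.card := by
    rw [← sum_degrees_eq_twice_card_edges, Finset.sum_congr rfl (fun v _ => hreg v),
      Finset.sum_const, Finset.card_univ, smul_eq_mul]
  have h4 : 3 ^ ((d + 1 + s) * d) * (2 ^ s) ^ 4 ≤ ((d + 1 + s) * Nat.factorial d * d ^ s) ^ 4 := by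
    rw [← hs]
    calc 3 ^ (Fintype.card V * d) * (2 ^ s) ^ 4 =
          (3 ^ G.edgeFinset.card) ^ 2 * (2 ^ s) ^ 4 := by
            rw [h3, ← pow_mul 3, mul_comm 2 G.edgeFinset.card]
      _ ≤ ((autF G).card ^ 2) ^ 2 * (2 ^ s) ^ 4 :=
          Nat.mul_le_mul_right _ (Nat.pow_le_pow_left h1 2)
      _ = ((autF G).card * 2 ^ s) ^ 4 := by ring
      _ ≤ (Fintype.card V * Nat.factorial d * d ^ s) ^ 4 := Nat.pow_le_pow_left h2 4
  have h5 : (d = 1 ∧ s = 0) ∨ (d = 2 ∧ s = 0) := by
    by_contra hcon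
    push Not at hcon
    have := num_ineq d s hd1 (fun h => hcon.1 h.1 h.2) (fun h => hcon.2 h.1 h.2)
    omega
  rcases h5 with ⟨rfl, rfl⟩ | ⟨rfl, rfl⟩
  · -- two vertices
    exfalso
    have hV : ∀ v, v = u₀ ∨ v = v₀ := by
      intro v
      have h : ({u₀, v₀} : Finset V) = Finset.univ := by
        rw [← Finset.card_eq_iff_eq_univ, Finset.card_pair hadj.ne, hs]
      have : v ∈ ({u₀, v₀} : Finset V) := by rw [h]; exact Finset.mem_univ v
      simpa using this
    obtain ⟨⟨w, -, hw⟩, -⟩ := hU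
    apply hw u₀ v₀ hadj
    unfold vertexSum
    rw [Finset.sum_eq_single v₀, Finset.sum_eq_single u₀, if_pos hadj, if_pos hadj.symm,
      Sym2.eq_swap]
    · intro u _ hu
      rcases hV u with rfl | rfl
      · exact absurd rfl hu
      · simp
    · simp
    · intro u _ hu
      rcases hV u with rfl | rfl
      · simp
      · exact absurd rfl hu
    · simp
  · refine ⟨by rw [hs], fun u v huv => ?_⟩
    have h6 : G.neighborFinset u = Finset.univ.erase u := by
      apply Finset.eq_of_subset_of_card_le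
      · intro w hw
        rw [Finset.mem_erase]
        exact ⟨((mem_neighborFinset _ _ _).1 hw).ne', Finset.mem_univ w⟩
      · rw [Finset.card_erase_of_mem (Finset.mem_univ u), Finset.card_univ,
          card_neighborFinset_eq_degree, hreg, hs]
    rw [← mem_neighborFinset, h6]
    exact Finset.mem_erase.2 ⟨huv.symm, Finset.mem_univ v⟩

end Run7.h426.ThreeWeight
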