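import Pool.Agent.Run7.h426.ThreeWeightDefs

/-!
# The triangle is uniquely 3-weight colourable
-/

namespace Run7.h426.ThreeWeight

open SimpleGraph

open scoped Classical

variable {V : Type*} [Fintype V] {G : SimpleGraph V}

/-! ## The triangle -/

lemma vertexSum_map {A B : Type*} [Fintype A] [Fintype B] {K : SimpleGraph A}
    {L : SimpleGraph B} (θ : K ≃g L) (w : Sym2 B → ℕ) (v : A) :
    vertexSum K (fun e => w (e.map θ)) v = vertexSum L w (θ v) := by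
  unfold vertexSum
  rw [← Equiv.sum_comp θ.toEquiv]
  refine Finset.sum_congr rfl fun u _ => ?_
  have hadj : L.Adj (θ v) (θ.toEquiv u) ↔ K.Adj v u := θ.map_adj_iff
  by_cases hvu : K.Adj v u
  · rw [if_pos hvu, if_pos (hadj.2 hvu)]
    simp
  · rw [if_neg hvu, if_neg (fun hh => hvu (hadj.1 hh))]

lemma transport_weighting {A B : Type*} [Fintype A] [Fintype B] {K : SimpleGraph A}
    {L : SimpleGraph B} (θ : K ≃g L) {w : Sym2 B → ℕ} (h1 : IsThreeWeighting L w)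
    (h2 : ProperBySums L w) :
    IsThreeWeighting K (fun e => w (e.map θ)) ∧ ProperBySums K (fun e => w (e.map θ)) := by
  constructor
  · intro e he
    exact h1 _ (θ.mapEdgeSet ⟨e, he⟩).2
  · intro u v huv
    rw [vertexSum_map, vertexSum_map]
    exact h2 _ _ (θ.map_adj_iff.2 huv)

lemma unique_transport {W : Type*} [Fintype W] {H : SimpleGraph W} (ψ : G ≃g H)
    (hU : UniquelyThreeWeightColourable H) : UniquelyThreeWeightColourable G := by
  obtain ⟨⟨w₀, a1, a2⟩, huniq⟩ := hU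
  refine ⟨⟨_, transport_weighting ψ a1 a2⟩, ?_⟩
  intro w w' h1 h2 h3 h4
  obtain ⟨b1, b2⟩ := transport_weighting ψ.symm h1 h2
  obtain ⟨b3, b4⟩ := transport_weighting ψ.symm h3 h4
  obtain ⟨φ, hφ⟩ := huniq _ _ b1 b2 b3 b4
  refine ⟨(ψ.trans φ).trans ψ.symm, fun e he => ?_⟩
  have := hφ (e.map ψ) (ψ.mapEdgeSet ⟨e, he⟩).2
  simp only [Sym2.map_map] at this
  have e1 : (ψ.symm ∘ φ ∘ ψ : V → V) = ((ψ.trans φ).trans ψ.symm : G ≃g G) := by
    ext v; simp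
  have e2 : (ψ.symm ∘ ψ : V → V) = id := by
    ext v; simp
  rw [e2, Sym2.map_id] at this
  rw [← e1]
  exact this

/-- the weights of the edges of the triangle, in terms of the three edges -/
lemma vertexSum_three (w : Sym2 (Fin 3) → ℕ) :
    vertexSum (⊤ : SimpleGraph (Fin 3)) w 0 = w s(0, 1) + w s(0, 2) ∧
    vertexSum (⊤ : SimpleGraph (Fin 3)) w 1 = w s(0, 1) + w s(1, 2) ∧
    vertexSum (⊤ : SimpleGraph (Fin 3)) w 2 = w s(0, 2) + w s(1, 2) := by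
  have e1 : s((1 : Fin 3), (0 : Fin 3)) = s(0, 1) := Sym2.eq_swap
  have e2 : s((2 : Fin 3), (0 : Fin 3)) = s(0, 2) := Sym2.eq_swap
  have e3 : s((2 : Fin 3), (1 : Fin 3)) = s(1, 2) := Sym2.eq_swap
  refine ⟨?_, ?_, ?_⟩ <;> simp [vertexSum, Fin.sum_univ_three, e1, e2, e3]

/-- it is enough to match the weights on the three edges -/
lemma iso_of_three (w w' : Sym2 (Fin 3) → ℕ) (f : Equiv.Perm (Fin 3))
    (h1 : w' s(f 0, f 1) = w s(0, 1)) (h2 : w' s(f 0, f 2) = w s(0, 2))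
    (h3 : w' s(f 1, f 2) = w s(1, 2)) :
    IsoWeightings (⊤ : SimpleGraph (Fin 3)) w w' := by
  refine ⟨Iso.completeGraph f, ?_⟩
  intro e he
  have hkey : ∀ a b : Fin 3, a ≠ b → w' s(f a, f b) = w s(a, b) := by
    intro a b hab
    fin_cases a <;> fin_cases b <;> simp at hab ⊢
    · exact h1
    · exact h2
    · rw [Sym2.eq_swap, h1, Sym2.eq_swap]
    · exact h3
    · rw [Sym2.eq_swap, h2, Sym2.eq_swap]
    · rw [Sym2.eq_swap, h3, Sym2.eq_swap]
  induction e with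
  | _ a b =>
    have hab : a ≠ b := by simpa using he
    exact hkey a b hab

lemma triangle_unique : UniquelyThreeWeightColourable (⊤ : SimpleGraph (Fin 3)) := by
  constructor
  · refine ⟨fun e => if e = s(0, 1) then 1 else if e = s(0, 2) then 2 else 3, ?_, ?_⟩
    · intro e _
      show (if e = s(0, 1) then 1 else if e = s(0, 2) then 2 else 3) = 1 ∨
        (if e = s(0, 1) then 1 else if e = s(0, 2) then 2 else 3) = 2 ∨
        (if e = s(0, 1) then 1 else if e = s(0, 2) then 2 else 3) = 3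
      split_ifs <;> simp
    · have n1 : s((0 : Fin 3), (2 : Fin 3)) ≠ s(0, 1) := by decide
      have n2 : s((1 : Fin 3), (2 : Fin 3)) ≠ s(0, 1) := by decide
      have n3 : s((1 : Fin 3), (2 : Fin 3)) ≠ s(0, 2) := by decide
      obtain ⟨h0, h1, h2⟩ := vertexSum_three
        (fun e => if e = s(0, 1) then 1 else if e = s(0, 2) then 2 else 3)
      simp only [n1, n2, n3, if_true, if_false] at h0 h1 h2
      intro u v huv
      fin_cases u <;> fin_cases v <;> simp_all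
  · intro w w' h1 h2 h3 h4
    have t : ∀ (z : Sym2 (Fin 3) → ℕ), IsThreeWeighting (⊤ : SimpleGraph (Fin 3)) z →
        ProperBySums (⊤ : SimpleGraph (Fin 3)) z →
        (z s(0, 1) = 1 ∨ z s(0, 1) = 2 ∨ z s(0, 1) = 3) ∧
        (z s(0, 2) = 1 ∨ z s(0, 2) = 2 ∨ z s(0, 2) = 3) ∧
        (z s(1, 2) = 1 ∨ z s(1, 2) = 2 ∨ z s(1, 2) = 3) ∧
        z s(0, 1) ≠ z s(0, 2) ∧ z s(0, 1) ≠ z s(1, 2) ∧ z s(0, 2) ≠ z s(1, 2) := by
      intro z g1 g2
      obtain ⟨s0, s1, s2⟩ := vertexSum_three z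
      have p1 := g2 0 1 (by simp)
      have p2 := g2 0 2 (by simp)
      have p3 := g2 1 2 (by simp)
      rw [s0, s1] at p1
      rw [s0, s2] at p2
      rw [s1, s2] at p3
      refine ⟨g1 _ (by simp), g1 _ (by simp), g1 _ (by simp), ?_, ?_, ?_⟩ <;> omega
    obtain ⟨a1, a2, a3, a4, a5, a6⟩ := t w h1 h2
    obtain ⟨b1, b2, b3, b4, b5, b6⟩ := t w' h3 h4
    have q1 : s((1 : Fin 3), (0 : Fin 3)) = s(0, 1) := Sym2.eq_swap
    have q2 : s((2 : Fin 3), (0 : Fin 3)) = s(0, 2) := Sym2.eq_swap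
    have q3 : s((2 : Fin 3), (1 : Fin 3)) = s(1, 2) := Sym2.eq_swap
    -- the six permutations
    have A1 := iso_of_three w w' (Equiv.refl _)
    have A2 := iso_of_three w w' (Equiv.swap 0 1)
    have A3 := iso_of_three w w' (Equiv.swap 0 2)
    have A4 := iso_of_three w w' (Equiv.swap 1 2)
    have A5 := iso_of_three w w' ((Equiv.swap 0 1).trans (Equiv.swap 0 2))
    have A6 := iso_of_three w w' ((Equiv.swap 0 2).trans (Equiv.swap 0 1))
    have x1 : (Equiv.swap (0 : Fin 3) 1) 0 = 1 := by decide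
    have x2 : (Equiv.swap (0 : Fin 3) 1) 1 = 0 := by decide
    have x3 : (Equiv.swap (0 : Fin 3) 1) 2 = 2 := by decide
    have y1 : (Equiv.swap (0 : Fin 3) 2) 0 = 2 := by decide
    have y2 : (Equiv.swap (0 : Fin 3) 2) 1 = 1 := by decide
    have y3 : (Equiv.swap (0 : Fin 3) 2) 2 = 0 := by decide
    have z1 : (Equiv.swap (1 : Fin 3) 2) 0 = 0 := by decide
    have z2 : (Equiv.swap (1 : Fin 3) 2) 1 = 2 := by decide
    have z3 : (Equiv.swap (1 : Fin 3) 2) 2 = 1 := by decide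
    simp only [Equiv.refl_apply, Equiv.trans_apply, x1, x2, x3, y1, y2, y3, z1, z2, z3, q1, q2, q3]
      at A1 A2 A3 A4 A5 A6
    have six : ∀ x y z : ℕ, (x = 1 ∨ x = 2 ∨ x = 3) → (y = 1 ∨ y = 2 ∨ y = 3) →
        (z = 1 ∨ z = 2 ∨ z = 3) → x ≠ y → x ≠ z → y ≠ z →
        (x = 1 ∧ y = 2 ∧ z = 3) ∨ (x = 1 ∧ y = 3 ∧ z = 2) ∨ (x = 2 ∧ y = 1 ∧ z = 3) ∨
        (x = 2 ∧ y = 3 ∧ z = 1) ∨ (x = 3 ∧ y = 1 ∧ z = 2) ∨ (x = 3 ∧ y = 2 ∧ z = 1) := by
      rintro x y z (rfl | rfl | rfl) (rfl | rfl | rfl) (rfl | rfl | rfl) <;> simp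
    rcases six _ _ _ a1 a2 a3 a4 a5 a6 with ⟨c1, c2, c3⟩ | ⟨c1, c2, c3⟩ | ⟨c1, c2, c3⟩ |
      ⟨c1, c2, c3⟩ | ⟨c1, c2, c3⟩ | ⟨c1, c2, c3⟩ <;>
    rcases six _ _ _ b1 b2 b3 b4 b5 b6 with ⟨d1, d2, d3⟩ | ⟨d1, d2, d3⟩ | ⟨d1, d2, d3⟩ |
      ⟨d1, d2, d3⟩ | ⟨d1, d2, d3⟩ | ⟨d1, d2, d3⟩ <;>
    rw [c1, c2, c3, d1, d2, d3] at A1 A2 A3 A4 A5 A6 <;>
    first
      | exact A1 rfl rfl rfl
      | exact A2 rfl rfl rfl
      | exact A3 rfl rfl rfl
      | exact A4 rfl rfl rfl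
      | exact A5 rfl rfl rfl
      | exact A6 rfl rfl rfl

end Run7.h426.ThreeWeight
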