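import Pool.Agent.Run7.h426.Classify
import Pool.Agent.Run7.h426.Triangle

/-!
# Uniquely 3-weight colourable graphs and connected components
-/

namespace Run7.h426.ThreeWeight

open SimpleGraph Function

open scoped Classical

variable {V : Type*} [Fintype V] {G : SimpleGraph V}

lemma vertexSum_congr {w w' : Sym2 V → ℕ} {v : V}
    (h : ∀ u, G.Adj v u → w s(v, u) = w' s(v, u)) : vertexSum G w v = vertexSum G w' v := by
  unfold vertexSum
  refine Finset.sum_congr rfl fun u _ => ?_
  by_cases hvu : G.Adj v u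
  · rw [if_pos hvu, if_pos hvu, h u hvu]
  · rw [if_neg hvu, if_neg hvu]

/-- the vertex sum inside a component -/
lemma vertexSum_comp (w : Sym2 V → ℕ) (K : G.ConnectedComponent) (v : V) (hv : v ∈ K) :
    vertexSum K.toSimpleGraph (fun e => w (e.map Subtype.val)) ⟨v, hv⟩ = vertexSum G w v := by
  unfold vertexSum
  have h1 : ∑ u : V, (if G.Adj v u then w s(v, u) else 0) =
      ∑ u ∈ Finset.univ.filter (fun u => u ∈ K), (if G.Adj v u then w s(v, u) else 0) := by
    rw [Finset.sum_filter]
    refine Finset.sum_congr rfl fun u _ => ?_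
    by_cases hu : u ∈ K
    · rw [if_pos hu]
    · rw [if_neg hu, if_neg]
      intro hvu
      exact hu (K.mem_supp_of_adj_mem_supp hv hvu)
  rw [h1, Finset.sum_subtype (p := fun u => u ∈ K) _ (by simp)]
  refine Finset.sum_congr rfl fun u _ => ?_
  have h2 : K.toSimpleGraph.Adj ⟨v, hv⟩ u ↔ G.Adj v u := K.toSimpleGraph_adj hv u.2
  by_cases hvu : G.Adj v u
  · rw [if_pos hvu, if_pos (h2.2 hvu)]
    rfl
  · rw [if_neg hvu, if_neg (fun h => hvu (h2.1 h))]

lemma weighting_comp {w : Sym2 V → ℕ} (h : IsThreeWeighting G w) (K : G.ConnectedComponent) :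
    IsThreeWeighting K.toSimpleGraph (fun e => w (e.map Subtype.val)) := by
  intro e he
  induction e with
  | _ a b => exact h _ ((K.toSimpleGraph_adj a.2 b.2).1 he)

lemma proper_comp {w : Sym2 V → ℕ} (h : ProperBySums G w) (K : G.ConnectedComponent) :
    ProperBySums K.toSimpleGraph (fun e => w (e.map Subtype.val)) := by
  rintro ⟨a, ha⟩ ⟨b, hb⟩ hab
  rw [vertexSum_comp, vertexSum_comp]
  exact h a b ((K.toSimpleGraph_adj ha hb).1 hab)

/-! ## Gluing automorphisms of the components -/

lemma glue_iso (θ : ∀ K : G.ConnectedComponent, K.toSimpleGraph ≃g K.toSimpleGraph) :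
    ∃ φ : G ≃g G, ∀ (K : G.ConnectedComponent) (v : V) (hv : v ∈ K),
      φ v = (θ K ⟨v, hv⟩ : V) := by
  obtain ⟨f, hf⟩ : ∃ f : V → V, ∀ (K : G.ConnectedComponent) (v : V) (hv : v ∈ K),
      f v = (θ K ⟨v, hv⟩ : V) := by
    refine ⟨fun v => (θ (G.connectedComponentMk v) ⟨v, rfl⟩ : V), ?_⟩
    intro K v hv
    have : G.connectedComponentMk v = K := hv
    subst this
    rfl
  have hmem : ∀ (K : G.ConnectedComponent) (v : V), v ∈ K → f v ∈ K := by
    intro K v hv
    rw [hf K v hv]
    exact (θ K ⟨v, hv⟩).2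
  have hmem' : ∀ (K : G.ConnectedComponent) (v : V), f v ∈ K → v ∈ K := by
    intro K v hv
    have h1 : f v ∈ G.connectedComponentMk v := hmem _ v rfl
    have h2 : G.connectedComponentMk (f v) = G.connectedComponentMk v := h1
    have h3 : G.connectedComponentMk (f v) = K := hv
    exact h2.symm.trans h3
  have hinj : Injective f := by
    intro u v huv
    have hu : u ∈ G.connectedComponentMk v := by
      apply hmem'
      rw [huv]
      exact hmem _ v rfl
    rw [hf (G.connectedComponentMk v) u hu, hf (G.connectedComponentMk v) v rfl] at huv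
    have := (θ (G.connectedComponentMk v)).injective (Subtype.val_injective huv)
    exact congrArg Subtype.val this
  have hadj : ∀ u v, G.Adj (f u) (f v) ↔ G.Adj u v := by
    intro u v
    have key : ∀ (hu : u ∈ G.connectedComponentMk v), G.Adj (f u) (f v) ↔ G.Adj u v := by
      intro hu
      rw [hf (G.connectedComponentMk v) u hu, hf (G.connectedComponentMk v) v rfl]
      have h1 := (θ (G.connectedComponentMk v)).map_adj_iff (v := ⟨u, hu⟩) (w := ⟨v, rfl⟩)
      have h2 := (G.connectedComponentMk v).toSimpleGraph_adj hu rfl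
      exact h1.trans h2
    constructor
    · intro h
      apply (key _).1 h
      apply hmem'
      have h1 : f v ∈ G.connectedComponentMk v := hmem _ v rfl
      exact (G.connectedComponentMk v).mem_supp_of_adj_mem_supp h1 h.symm
    · intro h
      apply (key _).2 h
      have h1 : v ∈ (G.connectedComponentMk v).supp := rfl
      exact (G.connectedComponentMk v).mem_supp_of_adj_mem_supp h1 h.symm
  refine ⟨⟨Equiv.ofBijective f (Finite.injective_iff_bijective.1 hinj), ?_⟩, ?_⟩
  · intro u v
    exact hadj u v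
  · intro K v hv
    exact hf K v hv

/-- if the weightings of all components are unique, so are those of the whole graph -/
lemma unique_of_comp (h : ∀ K : G.ConnectedComponent, ∀ w w' : Sym2 K → ℕ,
    IsThreeWeighting K.toSimpleGraph w → ProperBySums K.toSimpleGraph w →
    IsThreeWeighting K.toSimpleGraph w' → ProperBySums K.toSimpleGraph w' →
    IsoWeightings K.toSimpleGraph w w') (w w' : Sym2 V → ℕ) (h1 : IsThreeWeighting G w)
    (h2 : ProperBySums G w) (h3 : IsThreeWeighting G w') (h4 : ProperBySums G w') :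
    IsoWeightings G w w' := by
  choose θ hθ using fun K : G.ConnectedComponent => h K _ _ (weighting_comp h1 K)
    (proper_comp h2 K) (weighting_comp h3 K) (proper_comp h4 K)
  obtain ⟨φ, hφ⟩ := glue_iso θ
  refine ⟨φ, fun e he => ?_⟩
  induction e with
  | _ a b =>
    have hab : G.Adj a b := he
    have ha : a ∈ G.connectedComponentMk a := rfl
    have hb : b ∈ G.connectedComponentMk a :=
      (G.connectedComponentMk a).mem_supp_of_adj_mem_supp ha hab
    have h5 := hθ (G.connectedComponentMk a) s(⟨a, ha⟩, ⟨b, hb⟩)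
      (((G.connectedComponentMk a).toSimpleGraph_adj ha hb).2 hab)
    simp only [Sym2.map_mk] at h5
    rw [Sym2.map_mk, hφ _ a ha, hφ _ b hb]
    exact h5

/-! ## Placing a weighting of `H` on all components isomorphic to `H` -/

/-- the component of `v` is a copy of `H` -/
def good {W : Type*} (G : SimpleGraph V) (H : SimpleGraph W) (v : V) : Prop :=
  Nonempty ((G.connectedComponentMk v).toSimpleGraph ≃g H)

lemma good_congr {W : Type*} {H : SimpleGraph W} {u v : V} (h : G.Adj u v) :
    good G H u ↔ good G H v := by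
  have : G.connectedComponentMk u = G.connectedComponentMk v :=
    ConnectedComponent.sound h.reachable
  unfold good
  rw [this]

lemma exists_chart {W : Type*} [Nonempty W] (G : SimpleGraph V) (H : SimpleGraph W) :
    ∃ Ψ : V → W, ∀ K : G.ConnectedComponent, Nonempty (K.toSimpleGraph ≃g H) →
      ∃ ψ : K.toSimpleGraph ≃g H, ∀ v (hv : v ∈ K), Ψ v = ψ ⟨v, hv⟩ := by
  refine ⟨fun v => if h : good G H v then h.some ⟨v, rfl⟩ else Classical.arbitrary W, ?_⟩
  intro K hK
  refine ⟨hK.some, ?_⟩
  intro v hv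
  have : G.connectedComponentMk v = K := hv
  subst this
  have hg : good G H v := hK
  simp only [dif_pos hg]

/-- the weighting with a copy of `y` on the components isomorphic to `H` -/
noncomputable def place {W : Type*} (G : SimpleGraph V) (H : SimpleGraph W) (Ψ : V → W)
    (y : Sym2 W → ℕ) (w₀ : Sym2 V → ℕ) (e : Sym2 V) : ℕ :=
  if ∀ a ∈ e, good G H a then y (e.map Ψ) else w₀ e

lemma place_good {W : Type*} {H : SimpleGraph W} {Ψ : V → W} {y : Sym2 W → ℕ}
    {w₀ : Sym2 V → ℕ} {a b : V} (h : G.Adj a b) (ha : good G H a) :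
    place G H Ψ y w₀ s(a, b) = y s(Ψ a, Ψ b) := by
  unfold place
  rw [if_pos]
  · rfl
  · intro c hc
    rw [Sym2.mem_iff] at hc
    rcases hc with rfl | rfl
    · exact ha
    · exact (good_congr h).1 ha

lemma place_bad {W : Type*} {H : SimpleGraph W} {Ψ : V → W} {y : Sym2 W → ℕ}
    {w₀ : Sym2 V → ℕ} {a b : V} (ha : ¬ good G H a) :
    place G H Ψ y w₀ s(a, b) = w₀ s(a, b) := by
  unfold place
  rw [if_neg]
  intro h
  exact ha (h a (Sym2.mem_mk_left a b))

lemma place_spec {W : Type*} [Fintype W] {H : SimpleGraph W} {Ψ : V → W}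
    (hΨ : ∀ K : G.ConnectedComponent, Nonempty (K.toSimpleGraph ≃g H) →
      ∃ ψ : K.toSimpleGraph ≃g H, ∀ v (hv : v ∈ K), Ψ v = ψ ⟨v, hv⟩) {y : Sym2 W → ℕ}
    {w₀ : Sym2 V → ℕ} (hy1 : IsThreeWeighting H y) (hy2 : ProperBySums H y)
    (h1 : ∀ a b, G.Adj a b → ¬ good G H a → w₀ s(a, b) = 1 ∨ w₀ s(a, b) = 2 ∨ w₀ s(a, b) = 3)
    (h2 : ∀ a b, G.Adj a b → ¬ good G H a → vertexSum G w₀ a ≠ vertexSum G w₀ b) :
    IsThreeWeighting G (place G H Ψ y w₀) ∧ ProperBySums G (place G H Ψ y w₀) := by
  have hadj : ∀ a b, G.Adj a b → good G H a → H.Adj (Ψ a) (Ψ b) := by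
    intro a b hab ha
    obtain ⟨ψ, hψ⟩ := hΨ _ ha
    have ha' : a ∈ G.connectedComponentMk a := rfl
    have hb' : b ∈ G.connectedComponentMk a :=
      (G.connectedComponentMk a).mem_supp_of_adj_mem_supp ha' hab
    rw [hψ a ha', hψ b hb', ψ.map_adj_iff]
    exact ((G.connectedComponentMk a).toSimpleGraph_adj ha' hb').2 hab
  have hsum : ∀ a, good G H a → vertexSum G (place G H Ψ y w₀) a = vertexSum H y (Ψ a) := by
    intro a ha
    obtain ⟨ψ, hψ⟩ := hΨ _ ha
    have ha' : a ∈ G.connectedComponentMk a := rfl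
    rw [hψ a ha', ← vertexSum_map ψ, ← vertexSum_comp _ _ a ha']
    apply vertexSum_congr
    rintro ⟨b, hb⟩ hab
    have hab' := ((G.connectedComponentMk a).toSimpleGraph_adj ha' hb).1 hab
    show place G H Ψ y w₀ s(a, b) = y s(ψ ⟨a, ha'⟩, ψ ⟨b, hb⟩)
    rw [place_good hab' ha, hψ a ha', hψ b hb]
  have hsum' : ∀ a, ¬ good G H a → vertexSum G (place G H Ψ y w₀) a = vertexSum G w₀ a := by
    intro a ha
    apply vertexSum_congr
    intro u _
    exact place_bad ha
  constructor
  · intro e he
    induction e with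
    | _ a b =>
      by_cases ha : good G H a
      · rw [place_good he ha]
        exact hy1 _ (hadj a b he ha)
      · rw [place_bad ha]
        exact h1 a b he ha
  · intro a b hab
    by_cases ha : good G H a
    · rw [hsum a ha, hsum b ((good_congr hab).1 ha)]
      exact hy2 _ _ (hadj a b hab ha)
    · rw [hsum' a ha, hsum' b (fun h => ha ((good_congr hab).2 h))]
      exact h2 a b hab ha

/-- the components of a uniquely 3-weight colourable graph are uniquely 3-weight colourable -/
lemma comp_unique (hU : UniquelyThreeWeightColourable G) (C : G.ConnectedComponent) :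
    UniquelyThreeWeightColourable C.toSimpleGraph := by
  obtain ⟨⟨w₀, a1, a2⟩, huniq⟩ := hU
  refine ⟨⟨_, weighting_comp a1 C, proper_comp a2 C⟩, ?_⟩
  intro y y' h1 h2 h3 h4
  haveI : Nonempty C := C.connected_toSimpleGraph.nonempty
  obtain ⟨Ψ, hΨ⟩ := exists_chart G C.toSimpleGraph
  have b1 := place_spec hΨ h1 h2 (w₀ := w₀) (fun a b hab _ => a1 _ hab)
    (fun a b hab _ => a2 a b hab)
  have b2 := place_spec hΨ h3 h4 (w₀ := w₀) (fun a b hab _ => a1 _ hab)
    (fun a b hab _ => a2 a b hab)
  obtain ⟨φ, hφ⟩ := huniq _ _ b1.1 b1.2 b2.1 b2.2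
  -- the chart on `C`
  obtain ⟨ψ, hψ⟩ := hΨ C ⟨Iso.refl⟩
  -- the image component
  let K' := φ.connectedComponentEquiv C
  have hK' : ∀ v, v ∈ C → φ v ∈ K' := fun v hv =>
    ConnectedComponent.iso_image_comp_eq_map_iff_eq_comp.mpr hv
  let φC : C.toSimpleGraph ≃g K'.toSimpleGraph :=
    { toEquiv := ConnectedComponent.isoEquivSupp φ C
      map_rel_iff' := by
        intro a b
        exact φ.map_adj_iff }
  have hφC : ∀ v (hv : v ∈ C), φC ⟨v, hv⟩ = ⟨φ v, hK' v hv⟩ := fun v hv => rfl
  obtain ⟨ψ', hψ'⟩ := hΨ K' ⟨φC.symm⟩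
  refine ⟨(ψ.symm.trans φC).trans ψ', fun f hf => ?_⟩
  induction f with
  | _ a b =>
    obtain ⟨⟨a', ha'⟩, rfl⟩ := ψ.surjective a
    obtain ⟨⟨b', hb'⟩, rfl⟩ := ψ.surjective b
    have hab : G.Adj a' b' := (C.toSimpleGraph_adj ha' hb').1 (ψ.map_adj_iff.1 hf)
    have hga : good G C.toSimpleGraph a' := by
      have : G.connectedComponentMk a' = C := ha'
      unfold good
      rw [this]
      exact ⟨Iso.refl⟩
    have hgφa : good G C.toSimpleGraph (φ a') := by
      have : G.connectedComponentMk (φ a') = K' := hK' a' ha'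
      unfold good
      rw [this]
      exact ⟨φC.symm⟩
    have hφab : G.Adj (φ a') (φ b') := φ.map_adj_iff.2 hab
    have h5 := hφ s(a', b') hab
    rw [Sym2.map_mk, place_good hφab hgφa, place_good hab hga, hψ' _ (hK' a' ha'),
      hψ' _ (hK' b' hb'), hψ a' ha', hψ b' hb'] at h5
    rw [Sym2.map_mk]
    simpa [hφC] using h5

end Run7.h426.ThreeWeight
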