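import Mathlib

/-!
# Polynomial functions on a grid with three values per coordinate

Two facts on polynomial functions of bounded total degree on the grid `{1,2,3}^T`:
* the weighted sum with weights `1, -2, 1` vanishes if the degree is less than `2 |T|`;
* a function of degree at most `d` which is not zero on the whole grid has many non-zeros:
  their number `N` satisfies `9 ^ |T| ≤ N ^ 2 * 3 ^ d`  (a form of the theorem of Alon and Furedi).
-/

namespace Run7.h426.ThreeWeight

open Function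

section Deg

variable {I : Type*}

/-- polynomial functions with integer coefficients, of degree at most `d` -/
inductive Deg : ℕ → ((I → ℤ) → ℤ) → Prop
  | const (c : ℤ) : Deg 0 (fun _ => c)
  | add {d : ℕ} {f g : (I → ℤ) → ℤ} : Deg d f → Deg d g → Deg d (fun x => f x + g x)
  | coord {d : ℕ} {f : (I → ℤ) → ℤ} (i : I) : Deg d f → Deg (d + 1) (fun x => x i * f x)
  | raise {d : ℕ} {f : (I → ℤ) → ℤ} : Deg d f → Deg (d + 1) f

lemma Deg.mono {d e : ℕ} {f : (I → ℤ) → ℤ} (h : Deg d f) (hde : d ≤ e) : Deg e f := by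
  induction hde with
  | refl => exact h
  | step _ ih => exact Deg.raise ih

lemma Deg.const' (d : ℕ) (c : ℤ) : Deg d (fun _ : I → ℤ => c) :=
  (Deg.const c).mono (Nat.zero_le d)

lemma Deg.smul {d : ℕ} {f : (I → ℤ) → ℤ} (h : Deg d f) (c : ℤ) :
    Deg d (fun x => c * f x) := by
  induction h with
  | const c' => exact Deg.const (c * c')
  | add _ _ ih1 ih2 =>
    have := Deg.add ih1 ih2
    convert this using 2
    ring
  | coord i _ ih =>
    have := Deg.coord i ih
    convert this using 2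
    ring
  | raise _ ih => exact Deg.raise ih

lemma Deg.sum {d : ℕ} {J : Type*} (s : Finset J) {f : J → (I → ℤ) → ℤ}
    (h : ∀ j ∈ s, Deg d (f j)) : Deg d (fun x => ∑ j ∈ s, f j x) := by
  classical
  induction s using Finset.induction_on with
  | empty => simpa using Deg.const' d 0
  | insert j s hj ih =>
    have h1 := Deg.add (h j (Finset.mem_insert_self j s))
      (ih fun k hk => h k (Finset.mem_insert_of_mem hk))
    convert h1 using 2
    rw [Finset.sum_insert hj]

variable [DecidableEq I]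

lemma Deg.div {d : ℕ} {f : (I → ℤ) → ℤ} (h : Deg d f) (i : I) (a : ℤ) :
    ∃ q : (I → ℤ) → ℤ, (d = 0 → ∀ x, q x = 0) ∧ Deg (d - 1) q ∧
      ∀ x, f x = f (update x i a) + (x i - a) * q x := by
  induction h with
  | const c => exact ⟨fun _ => 0, fun _ _ => rfl, Deg.const 0, fun x => by simp⟩
  | @add d f g _ _ ih1 ih2 =>
    obtain ⟨q1, a1, b1, c1⟩ := ih1
    obtain ⟨q2, a2, b2, c2⟩ := ih2
    refine ⟨fun x => q1 x + q2 x, fun h x => ?_, Deg.add b1 b2, fun x => ?_⟩
    · show q1 x + q2 x = 0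
      rw [a1 h, a2 h]; rfl
    · show f x + g x = f (update x i a) + g (update x i a) + (x i - a) * (q1 x + q2 x)
      linear_combination c1 x + c2 x
  | @coord d f j hf ih =>
    obtain ⟨q, a1, b1, c1⟩ := ih
    by_cases hji : j = i
    · subst hji
      refine ⟨fun x => f x + a * q x, fun h => absurd h (Nat.succ_ne_zero d), ?_, fun x => ?_⟩
      · exact Deg.add hf ((b1.mono (by omega)).smul a)
      · show x j * f x = (update x j a) j * f (update x j a) + (x j - a) * (f x + a * q x)
        rw [update_self]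
        linear_combination a * c1 x
    · refine ⟨fun x => x j * q x, fun h => absurd h (Nat.succ_ne_zero d), ?_, fun x => ?_⟩
      · rcases Nat.eq_zero_or_pos d with hd | hd
        · have h0 := a1 hd
          have : (fun x : I → ℤ => x j * q x) = fun _ => 0 := by
            funext x; rw [h0 x, mul_zero]
          rw [this]
          exact Deg.const' _ 0
        · have := Deg.coord j b1
          exact this.mono (by omega)
      · show x j * f x = (update x i a) j * f (update x i a) + (x i - a) * (x j * q x)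
        rw [update_of_ne hji]
        linear_combination x j * c1 x
  | @raise d f _ ih =>
    obtain ⟨q, _, b1, c1⟩ := ih
    exact ⟨q, fun h => absurd h (Nat.succ_ne_zero d), b1.mono (by omega), c1⟩

end Deg

section Grid

variable {I : Type*} [DecidableEq I] [Fintype I]

/-- the points with coordinates in `{1,2,3}` on `T` and prescribed by `z` off `T` -/
def grid (T : Finset I) (z : I → ℤ) : Finset (I → ℤ) :=
  Fintype.piFinset (fun i => if i ∈ T then ({1, 2, 3} : Finset ℤ) else {z i})

lemma mem_grid {T : Finset I} {z x : I → ℤ} :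
    x ∈ grid T z ↔ (∀ i ∈ T, x i = 1 ∨ x i = 2 ∨ x i = 3) ∧ ∀ i, i ∉ T → x i = z i := by
  unfold grid
  rw [Fintype.mem_piFinset]
  constructor
  · intro h
    constructor
    · intro i hi
      have := h i
      rw [if_pos hi] at this
      simpa using this
    · intro i hi
      have := h i
      rw [if_neg hi] at this
      simpa using this
  · rintro ⟨h1, h2⟩ i
    by_cases hi : i ∈ T
    · rw [if_pos hi]
      simpa using h1 i hi
    · rw [if_neg hi]
      simpa using h2 i hi

lemma update_mem_grid {T : Finset I} {z x : I → ℤ} {i : I} (hi : i ∉ T) {a b : ℤ}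
    (hx : x ∈ grid T (update z i a)) : update x i b ∈ grid T (update z i b) := by
  rw [mem_grid] at hx ⊢
  constructor
  · intro j hj
    rw [update_of_ne (fun h : j = i => hi (h ▸ hj))]
    exact hx.1 j hj
  · intro j hj
    by_cases h : j = i
    · subst h; simp
    · rw [update_of_ne h, update_of_ne h]
      have := hx.2 j hj
      rwa [update_of_ne h] at this

lemma val_of_mem {T : Finset I} {z x : I → ℤ} {i : I} (hi : i ∉ T) {a : ℤ}
    (hx : x ∈ grid T (update z i a)) : x i = a := by
  rw [mem_grid] at hx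
  have := hx.2 i hi
  simpa using this

lemma grid_insert {T : Finset I} {z : I → ℤ} {i : I} (hi : i ∉ T) :
    grid (insert i T) z = ({1, 2, 3} : Finset ℤ).biUnion (fun a => grid T (update z i a)) := by
  ext x
  rw [Finset.mem_biUnion, mem_grid]
  constructor
  · rintro ⟨h1, h2⟩
    refine ⟨x i, by simpa using h1 i (Finset.mem_insert_self i T), ?_⟩
    rw [mem_grid]
    refine ⟨fun j hj => h1 j (Finset.mem_insert_of_mem hj), fun j hj => ?_⟩
    by_cases h : j = i
    · subst h; simp
    · rw [update_of_ne h]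
      exact h2 j (by simp [h, hj])
  · rintro ⟨a, ha, hx⟩
    have hxi := val_of_mem hi hx
    rw [mem_grid] at hx
    constructor
    · intro j hj
      rw [Finset.mem_insert] at hj
      rcases hj with rfl | hj
      · rw [hxi]; simpa using ha
      · exact hx.1 j hj
    · intro j hj
      rw [Finset.mem_insert, not_or] at hj
      have := hx.2 j hj.2
      rwa [update_of_ne hj.1] at this

lemma sum_grid_insert {M : Type*} [AddCommMonoid M] {T : Finset I} {z : I → ℤ} {i : I}
    (hi : i ∉ T) (F : (I → ℤ) → M) :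
    ∑ x ∈ grid (insert i T) z, F x = (∑ x ∈ grid T (update z i 1), F x) +
      ((∑ x ∈ grid T (update z i 2), F x) + (∑ x ∈ grid T (update z i 3), F x)) := by
  rw [grid_insert hi, Finset.sum_biUnion]
  · rw [Finset.sum_insert (by decide), Finset.sum_insert (by decide), Finset.sum_singleton]
  · intro a _ b _ hab
    show Disjoint (grid T (update z i a)) (grid T (update z i b))
    rw [Finset.disjoint_left]
    intro x hx hx'
    exact hab ((val_of_mem hi hx).symm.trans (val_of_mem hi hx'))

/-- the number of non-zeros of `f` on the grid -/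
def nz (T : Finset I) (z : I → ℤ) (f : (I → ℤ) → ℤ) : ℕ :=
  ((grid T z).filter (fun x => f x ≠ 0)).card

lemma nz_insert {T : Finset I} {z : I → ℤ} {i : I} (hi : i ∉ T) (f : (I → ℤ) → ℤ) :
    nz (insert i T) z f = nz T (update z i 1) f +
      (nz T (update z i 2) f + nz T (update z i 3) f) := by
  unfold nz
  simp only [Finset.card_filter]
  exact sum_grid_insert hi _

/-- peeling off a factor, if a slice vanishes -/
lemma peel {T : Finset I} {z : I → ℤ} {i : I} (hi : i ∉ T) {d : ℕ} {f : (I → ℤ) → ℤ}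
    (h : Deg d f) {a : ℤ} (ha : ∀ x ∈ grid T (update z i a), f x = 0) :
    ∃ q : (I → ℤ) → ℤ, (d = 0 → ∀ x, q x = 0) ∧ Deg (d - 1) q ∧
      ∀ b, b ≠ a → ∀ x ∈ grid T (update z i b), (f x = 0 ↔ q x = 0) := by
  obtain ⟨q, a1, b1, c1⟩ := h.div i a
  refine ⟨q, a1, b1, fun b hb x hx => ?_⟩
  have h1 := c1 x
  rw [ha _ (update_mem_grid hi hx), val_of_mem hi hx, zero_add] at h1
  rw [h1, mul_eq_zero]
  constructor
  · rintro (h2 | h2)
    · exact absurd (sub_eq_zero.1 h2) hb
    · exact h2
  · exact fun h2 => Or.inr h2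

lemma nz_congr {T : Finset I} {z : I → ℤ} {f g : (I → ℤ) → ℤ}
    (h : ∀ x ∈ grid T z, (f x = 0 ↔ g x = 0)) : nz T z f = nz T z g := by
  unfold nz
  congr 1
  apply Finset.filter_congr
  intro x hx
  rw [ne_eq, ne_eq, h x hx]

/-- A form of the theorem of Alon and Furedi. -/
theorem nz_bound (T : Finset I) : ∀ (z : I → ℤ) (d : ℕ) (f : (I → ℤ) → ℤ), Deg d f →
    (∃ x ∈ grid T z, f x ≠ 0) → 9 ^ T.card ≤ (nz T z f) ^ 2 * 3 ^ d := by
  induction T using Finset.induction_on with
  | empty =>
    rintro z d f _ ⟨x, hx, hfx⟩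
    have h1 : 0 < nz ∅ z f := Finset.card_pos.2 ⟨x, Finset.mem_filter.2 ⟨hx, hfx⟩⟩
    have h2 : 0 < (nz ∅ z f) ^ 2 * 3 ^ d := by positivity
    rw [Finset.card_empty, pow_zero]
    exact h2
  | insert i T hi ih =>
    rintro z d f hf ⟨x₀, hx₀, hfx₀⟩
    -- the three kinds of slices
    have A : ∀ b, (∃ x ∈ grid T (update z i b), f x ≠ 0) →
        9 ^ T.card ≤ (nz T (update z i b) f) ^ 2 * 3 ^ d := fun b hb => ih _ d f hf hb
    have B : ∀ a b, b ≠ a → (∀ x ∈ grid T (update z i a), f x = 0) →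
        (∃ x ∈ grid T (update z i b), f x ≠ 0) → 1 ≤ d ∧
        9 ^ T.card ≤ (nz T (update z i b) f) ^ 2 * 3 ^ (d - 1) := by
      rintro a b hab ha ⟨x, hx, hfx⟩
      obtain ⟨q, a1, b1, c1⟩ := peel hi hf ha
      have hq : q x ≠ 0 := fun k => hfx ((c1 b hab x hx).2 k)
      have hd : 1 ≤ d := by
        rcases Nat.eq_zero_or_pos d with h | h
        · exact absurd (a1 h x) hq
        · exact h
      refine ⟨hd, ?_⟩
      rw [nz_congr (c1 b hab)]
      exact ih _ _ q b1 ⟨x, hx, hq⟩
    have C : ∀ a a' b, b ≠ a → b ≠ a' → a' ≠ a → (∀ x ∈ grid T (update z i a), f x = 0) →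
        (∀ x ∈ grid T (update z i a'), f x = 0) →
        (∃ x ∈ grid T (update z i b), f x ≠ 0) → 2 ≤ d ∧
        9 ^ T.card ≤ (nz T (update z i b) f) ^ 2 * 3 ^ (d - 2) := by
      rintro a a' b hab hab' haa' ha ha' ⟨x, hx, hfx⟩
      obtain ⟨q, a1, b1, c1⟩ := peel hi hf ha
      have hq' : ∀ y ∈ grid T (update z i a'), q y = 0 := fun y hy =>
        (c1 a' haa' y hy).1 (ha' y hy)
      obtain ⟨q', a2, b2, c2⟩ := peel hi b1 hq'
      have hq : q x ≠ 0 := fun k => hfx ((c1 b hab x hx).2 k)
      have hqq : q' x ≠ 0 := fun k => hq ((c2 b hab' x hx).2 k)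
      have hd : 2 ≤ d := by
        by_contra hd
        exact hqq (a2 (by omega) x)
      refine ⟨hd, ?_⟩
      rw [nz_congr (c1 b hab), nz_congr (c2 b hab')]
      exact ih _ _ q' b2 ⟨x, hx, hqq⟩
    rw [nz_insert hi, Finset.card_insert_of_notMem hi, pow_succ]
    have V : ∀ a, (∀ x ∈ grid T (update z i a), f x = 0) ∨
        ∃ x ∈ grid T (update z i a), f x ≠ 0 := by
      intro a
      by_cases h : ∃ x ∈ grid T (update z i a), f x ≠ 0
      · exact Or.inr h
      · left
        intro x hx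
        by_contra hne
        exact h ⟨x, hx, hne⟩
    generalize hN1 : nz T (update z i 1) f = N1 at *
    generalize hN2 : nz T (update z i 2) f = N2 at *
    generalize hN3 : nz T (update z i 3) f = N3 at *
    -- arithmetic
    have ar0 : ∀ K s p q r : ℕ, K ≤ p ^ 2 * s → K ≤ q ^ 2 * s → K ≤ r ^ 2 * s →
        K * 9 ≤ (p + (q + r)) ^ 2 * s := by
      intro K s p q r h1 h2 h3
      obtain ⟨t, ht, h4⟩ : ∃ t, K ≤ t ^ 2 * s ∧ 3 * t ≤ p + (q + r) := by
        rcases le_total p q with h | h <;> rcases le_total p r with h' | h' <;>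
          rcases le_total q r with h'' | h''
        · exact ⟨p, h1, by omega⟩
        · exact ⟨p, h1, by omega⟩
        · exact ⟨p, h1, by omega⟩
        · exact ⟨r, h3, by omega⟩
        · exact ⟨q, h2, by omega⟩
        · exact ⟨r, h3, by omega⟩
        · exact ⟨q, h2, by omega⟩
        · exact ⟨r, h3, by omega⟩
      calc K * 9 ≤ t ^ 2 * s * 9 := Nat.mul_le_mul_right 9 ht
        _ = (3 * t) ^ 2 * s := by ring
        _ ≤ (p + (q + r)) ^ 2 * s := Nat.mul_le_mul_right s (Nat.pow_le_pow_left h4 2)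
    have ar1 : ∀ K p q N : ℕ, 1 ≤ d → K ≤ p ^ 2 * 3 ^ (d - 1) → K ≤ q ^ 2 * 3 ^ (d - 1) →
        p + q ≤ N → K * 9 ≤ N ^ 2 * 3 ^ d := by
      intro K p q N hd h1 h2 hN
      obtain ⟨t, ht, h4⟩ : ∃ t, K ≤ t ^ 2 * 3 ^ (d - 1) ∧ 2 * t ≤ N := by
        rcases le_total p q with h | h
        · exact ⟨p, h1, by omega⟩
        · exact ⟨q, h2, by omega⟩
      have e : (3 : ℕ) ^ d = 3 * 3 ^ (d - 1) := by
        rw [← pow_succ']; congr 1; omega
      calc K * 9 ≤ t ^ 2 * 3 ^ (d - 1) * 9 := Nat.mul_le_mul_right 9 ht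
        _ ≤ t ^ 2 * 3 ^ (d - 1) * 12 := Nat.mul_le_mul_left _ (by norm_num)
        _ = (2 * t) ^ 2 * 3 ^ d := by rw [e]; ring
        _ ≤ N ^ 2 * 3 ^ d := Nat.mul_le_mul_right _ (Nat.pow_le_pow_left h4 2)
    have ar2 : ∀ K p N : ℕ, 2 ≤ d → K ≤ p ^ 2 * 3 ^ (d - 2) → p ≤ N → K * 9 ≤ N ^ 2 * 3 ^ d := by
      intro K p N hd h1 hN
      have e : (3 : ℕ) ^ d = 9 * 3 ^ (d - 2) := by
        have : (9 : ℕ) = 3 ^ 2 := by norm_num
        rw [this, ← pow_add]; congr 1; omega
      calc K * 9 ≤ p ^ 2 * 3 ^ (d - 2) * 9 := Nat.mul_le_mul_right 9 h1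
        _ = p ^ 2 * 3 ^ d := by rw [e]; ring
        _ ≤ N ^ 2 * 3 ^ d := Nat.mul_le_mul_right _ (Nat.pow_le_pow_left hN 2)
    rcases V 1 with v1 | v1 <;> rcases V 2 with v2 | v2 <;> rcases V 3 with v3 | v3
    · exfalso
      rw [grid_insert hi, Finset.mem_biUnion] at hx₀
      obtain ⟨a, ha, hx⟩ := hx₀
      simp only [Finset.mem_insert, Finset.mem_singleton] at ha
      rcases ha with rfl | rfl | rfl
      · exact hfx₀ (v1 _ hx)
      · exact hfx₀ (v2 _ hx)
      · exact hfx₀ (v3 _ hx)
    · obtain ⟨k1, k2⟩ := C 1 2 3 (by norm_num) (by norm_num) (by norm_num) v1 v2 v3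
      rw [hN3] at k2
      exact ar2 _ _ _ k1 k2 (by omega)
    · obtain ⟨k1, k2⟩ := C 1 3 2 (by norm_num) (by norm_num) (by norm_num) v1 v3 v2
      rw [hN2] at k2
      exact ar2 _ _ _ k1 k2 (by omega)
    · obtain ⟨k1, k2⟩ := B 1 2 (by norm_num) v1 v2
      obtain ⟨_, k3⟩ := B 1 3 (by norm_num) v1 v3
      rw [hN2] at k2
      rw [hN3] at k3
      exact ar1 _ _ _ _ k1 k2 k3 (by omega)
    · obtain ⟨k1, k2⟩ := C 2 3 1 (by norm_num) (by norm_num) (by norm_num) v2 v3 v1
      rw [hN1] at k2
      exact ar2 _ _ _ k1 k2 (by omega)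
    · obtain ⟨k1, k2⟩ := B 2 1 (by norm_num) v2 v1
      obtain ⟨_, k3⟩ := B 2 3 (by norm_num) v2 v3
      rw [hN1] at k2
      rw [hN3] at k3
      exact ar1 _ _ _ _ k1 k2 k3 (by omega)
    · obtain ⟨k1, k2⟩ := B 3 1 (by norm_num) v3 v1
      obtain ⟨_, k3⟩ := B 3 2 (by norm_num) v3 v2
      rw [hN1] at k2
      rw [hN2] at k3
      exact ar1 _ _ _ _ k1 k2 k3 (by omega)
    · have k1 := A 1 v1
      have k2 := A 2 v2
      have k3 := A 3 v3
      rw [hN1] at k1
      rw [hN2] at k2
      rw [hN3] at k3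
      exact ar0 _ _ _ _ _ k1 k2 k3

/-- the weights `1, -2, 1` -/
def wt (a : ℤ) : ℤ := if a = 2 then -2 else 1

lemma sum_shift {T : Finset I} {z : I → ℤ} {i : I} (hi : i ∉ T) (a b : ℤ)
    (F : (I → ℤ) → ℤ) :
    ∑ x ∈ grid T (update z i a), F (update x i b) = ∑ x ∈ grid T (update z i b), F x := by
  refine Finset.sum_nbij' (fun x => update x i b) (fun x => update x i a) ?_ ?_ ?_ ?_ ?_
  · intro x hx; exact update_mem_grid hi hx
  · intro x hx; exact update_mem_grid hi hx
  · intro x hx
    show update (update x i b) i a = x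
    rw [update_idem, ← val_of_mem hi hx, update_eq_self]
  · intro x hx
    show update (update x i a) i b = x
    rw [update_idem, ← val_of_mem hi hx, update_eq_self]
  · intro x _; rfl

/-- the weighted sum of a function of small degree vanishes -/
theorem wsum_zero (T : Finset I) : ∀ (z : I → ℤ) (d : ℕ) (f : (I → ℤ) → ℤ), Deg d f →
    d < 2 * T.card → ∑ x ∈ grid T z, f x * ∏ j ∈ T, wt (x j) = 0 := by
  induction T using Finset.induction_on with
  | empty => intro z d f _ hd; simp at hd
  | insert i T hi ih =>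
    intro z d f hf hd
    rw [Finset.card_insert_of_notMem hi] at hd
    obtain ⟨q, a1, b1, c1⟩ := hf.div i 1
    obtain ⟨q', a2, b2, c2⟩ := b1.div i 1
    have hq' : ∀ b, ∑ x ∈ grid T (update z i b), q' x * ∏ j ∈ T, wt (x j) = 0 := by
      intro b
      by_cases h : d - 1 = 0
      · apply Finset.sum_eq_zero
        intro x _
        rw [a2 h x, zero_mul]
      · exact ih _ _ q' b2 (by omega)
    -- the slice `a`
    have hslice : ∀ a, ∑ x ∈ grid T (update z i a), f x * ∏ j ∈ insert i T, wt (x j) =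
        wt a * (∑ x ∈ grid T (update z i 1), f x * ∏ j ∈ T, wt (x j)) +
        wt a * (a - 1) * (∑ x ∈ grid T (update z i 1), q x * ∏ j ∈ T, wt (x j)) := by
      intro a
      have hupd : ∀ x : I → ℤ, ∏ j ∈ T, wt (x j) = ∏ j ∈ T, wt ((update x i 1) j) := by
        intro x
        refine Finset.prod_congr rfl fun j hj => ?_
        rw [update_of_ne (fun h : j = i => hi (h ▸ hj))]
      have s1 := sum_shift (z := z) hi a 1 (fun x => f x * ∏ j ∈ T, wt (x j))
      have s2 := sum_shift (z := z) hi a 1 (fun x => q x * ∏ j ∈ T, wt (x j))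
      have s3 := hq' a
      rw [← s1, ← s2]
      have e : ∀ x ∈ grid T (update z i a), f x * ∏ j ∈ insert i T, wt (x j) =
          wt a * (f (update x i 1) * ∏ j ∈ T, wt ((update x i 1) j)) +
          wt a * (a - 1) * (q (update x i 1) * ∏ j ∈ T, wt ((update x i 1) j)) +
          wt a * (a - 1) ^ 2 * (q' x * ∏ j ∈ T, wt (x j)) := by
        intro x hx
        rw [Finset.prod_insert hi, c1 x, c2 x, ← hupd, val_of_mem hi hx]
        ring
      rw [Finset.sum_congr rfl e, Finset.sum_add_distrib, Finset.sum_add_distrib,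
        ← Finset.mul_sum, ← Finset.mul_sum, ← Finset.mul_sum, s3]
      ring
    rw [sum_grid_insert hi, hslice, hslice, hslice]
    have w1 : wt 1 = 1 := by decide
    have w2 : wt 2 = -2 := by decide
    have w3 : wt 3 = 1 := by decide
    rw [w1, w2, w3]
    ring

end Grid

end Run7.h426.ThreeWeight
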