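import Mathlib

/-!
# Uniquely 3-weight colourable graphs: definitions
-/

namespace Run7.h426.ThreeWeight

open SimpleGraph

open scoped Classical

variable {V : Type*} [Fintype V]

/-- `w` gives every edge of `G` one of the weights `1, 2, 3` (values off the edges of `G` play no
role). -/
def IsThreeWeighting (G : SimpleGraph V) (w : Sym2 V → ℕ) : Prop :=
  ∀ e ∈ G.edgeSet, w e = 1 ∨ w e = 2 ∨ w e = 3

/-- The sum of the weights of the edges of `G` at the vertex `v`. -/
noncomputable def vertexSum (G : SimpleGraph V) (w : Sym2 V → ℕ) (v : V) : ℕ :=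
  ∑ u : V, if G.Adj v u then w s(v, u) else 0

/-- The weighting properly colours the vertices of `G` by sums. -/
def ProperBySums (G : SimpleGraph V) (w : Sym2 V → ℕ) : Prop :=
  ∀ u v, G.Adj u v → vertexSum G w u ≠ vertexSum G w v

/-- Two edge weightings are isomorphic if some automorphism of `G` carries one to the other. -/
def IsoWeightings (G : SimpleGraph V) (w w' : Sym2 V → ℕ) : Prop :=
  ∃ φ : G ≃g G, ∀ e ∈ G.edgeSet, w' (e.map φ) = w e

/-- `G` has exactly one edge 3-weighting, up to isomorphism, properly colouring its vertices by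
sums. -/
def UniquelyThreeWeightColourable (G : SimpleGraph V) : Prop :=
  (∃ w, IsThreeWeighting G w ∧ ProperBySums G w) ∧
  ∀ w w', IsThreeWeighting G w → ProperBySums G w → IsThreeWeighting G w' → ProperBySums G w' →
    IsoWeightings G w w'

end Run7.h426.ThreeWeight
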