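import Pool.Agent.Run7.h426.GridCount
import Pool.Agent.Run7.h426.ThreeWeightDefs

/-!
# Uniquely 3-weight colourable graphs: the orbit argument and the counting bound
-/

namespace Run7.h426.ThreeWeight

open SimpleGraph Function

open scoped Classical

variable {V : Type*} [Fintype V] {G : SimpleGraph V}

/-- the vertex sum over the integers -/
noncomputable def vs (G : SimpleGraph V) (x : Sym2 V → ℤ) (v : V) : ℤ :=
  ∑ u : V, if G.Adj v u then x s(v, u) else 0

lemma vs_cast (w : Sym2 V → ℕ) (v : V) :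
    vs G (fun e => (w e : ℤ)) v = (vertexSum G w v : ℤ) := by
  unfold vs vertexSum
  push_cast
  rfl

lemma vs_congr {x y : Sym2 V → ℤ} (h : ∀ e ∈ G.edgeSet, x e = y e) (v : V) :
    vs G x v = vs G y v := by
  unfold vs
  refine Finset.sum_congr rfl fun u _ => ?_
  by_cases hvu : G.Adj v u
  · rw [if_pos hvu, if_pos hvu, h _ hvu]
  · rw [if_neg hvu, if_neg hvu]

lemma deg_vs {d : ℕ} {f : (Sym2 V → ℤ) → ℤ} (h : Deg d f) (v : V) :
    Deg (d + 1) (fun x => vs G x v * f x) := by
  have e : (fun x : Sym2 V → ℤ => vs G x v * f x) =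
      fun x => ∑ u : V, (if G.Adj v u then x s(v, u) * f x else 0) := by
    funext x
    unfold vs
    rw [Finset.sum_mul]
    refine Finset.sum_congr rfl fun u _ => ?_
    split_ifs
    · rfl
    · rw [zero_mul]
  rw [e]
  apply Deg.sum
  intro u _
  by_cases hvu : G.Adj v u
  · simp only [if_pos hvu]
    exact Deg.coord _ h
  · simp only [if_neg hvu]
    exact Deg.const' _ 0

lemma deg_vs_sub {d : ℕ} {f : (Sym2 V → ℤ) → ℤ} (h : Deg d f) (u v : V) :
    Deg (d + 1) (fun x => (vs G x u - vs G x v) * f x) := by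
  have h1 := Deg.add (deg_vs (G := G) h u) ((deg_vs (G := G) h v).smul (-1))
  convert h1 using 2
  ring

/-- the factor of the edge `e` : the difference of the sums at its ends, oriented by `c`, or its
square if `c` takes the same value at both ends -/
noncomputable def fac (G : SimpleGraph V) (c : V → ℕ) (x : Sym2 V → ℤ) (e : Sym2 V) : ℤ :=
  Sym2.lift ⟨fun u v => if c u < c v then vs G x u - vs G x v
    else if c v < c u then vs G x v - vs G x u else (vs G x u - vs G x v) ^ 2, by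
      intro u v
      dsimp only
      rcases lt_trichotomy (c u) (c v) with h | h | h
      · rw [if_pos h, if_neg h.le.not_gt, if_pos h]
      · rw [if_neg h.le.not_gt, if_neg h.ge.not_gt, if_neg h.le.not_gt, if_neg h.ge.not_gt]
        ring
      · rw [if_neg h.le.not_gt, if_pos h, if_pos h]⟩ e

/-- the degree of the factor of the edge `e` -/
noncomputable def kk (c : V → ℕ) (e : Sym2 V) : ℕ :=
  Sym2.lift ⟨fun u v => if c u = c v then 2 else 1, by
    intro u v
    dsimp only
    by_cases h : c u = c v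
    · rw [if_pos h, if_pos h.symm]
    · rw [if_neg h, if_neg (fun k => h k.symm)]⟩ e

omit [Fintype V] in
lemma kk_le (c : V → ℕ) (e : Sym2 V) : kk c e ≤ 2 := by
  induction e with
  | _ u v =>
    show (if c u = c v then 2 else 1) ≤ 2
    split_ifs <;> norm_num

omit [Fintype V] in
lemma kk_of_ne {c : V → ℕ} {u v : V} (h : c u ≠ c v) : kk c s(u, v) = 1 := by
  show (if c u = c v then 2 else 1) = 1
  rw [if_neg h]

lemma deg_fac {d : ℕ} {f : (Sym2 V → ℤ) → ℤ} (h : Deg d f) (c : V → ℕ) (e : Sym2 V) :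
    Deg (d + kk c e) (fun x => fac G c x e * f x) := by
  induction e with
  | _ u v =>
    show Deg (d + if c u = c v then 2 else 1) (fun x =>
      (if c u < c v then vs G x u - vs G x v
      else if c v < c u then vs G x v - vs G x u else (vs G x u - vs G x v) ^ 2) * f x)
    rcases lt_trichotomy (c u) (c v) with h1 | h1 | h1
    · simp only [if_pos h1, if_neg h1.ne]
      exact deg_vs_sub h u v
    · simp only [if_neg h1.le.not_gt, if_neg h1.ge.not_gt, if_pos h1]
      have := deg_vs_sub (G := G) (deg_vs_sub (G := G) h u v) u v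
      convert this using 2
      ring
    · simp only [if_neg h1.le.not_gt, if_pos h1, if_neg h1.ne']
      exact deg_vs_sub h v u

lemma fac_ne_zero {c : V → ℕ} {x : Sym2 V → ℤ} {u v : V} :
    fac G c x s(u, v) ≠ 0 ↔ vs G x u ≠ vs G x v := by
  show (if c u < c v then vs G x u - vs G x v
      else if c v < c u then vs G x v - vs G x u else (vs G x u - vs G x v) ^ 2) ≠ 0 ↔ _
  rcases lt_trichotomy (c u) (c v) with h1 | h1 | h1
  · simp only [if_pos h1]
    rw [sub_ne_zero]
  · simp only [if_neg h1.le.not_gt, if_neg h1.ge.not_gt]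
    rw [pow_ne_zero_iff two_ne_zero, sub_ne_zero]
  · simp only [if_neg h1.le.not_gt, if_pos h1]
    rw [sub_ne_zero, ne_comm]

/-- the product of the factors of all edges -/
noncomputable def RR (G : SimpleGraph V) (c : V → ℕ) (x : Sym2 V → ℤ) : ℤ :=
  ∏ e ∈ G.edgeFinset, fac G c x e

lemma deg_RR (c : V → ℕ) : Deg (∑ e ∈ G.edgeFinset, kk c e) (RR G c) := by
  have h : ∀ E : Finset (Sym2 V), Deg (∑ e ∈ E, kk c e) (fun x => ∏ e ∈ E, fac G c x e) := by
    intro E
    induction E using Finset.induction_on with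
    | empty => simpa using Deg.const' 0 1
    | insert e E he ih =>
      have h1 := deg_fac (G := G) ih c e
      rw [Finset.sum_insert he, add_comm]
      convert h1 using 2
      rw [Finset.prod_insert he]
  exact h _

lemma RR_ne_zero (c : V → ℕ) (x : Sym2 V → ℤ) :
    RR G c x ≠ 0 ↔ ∀ u v, G.Adj u v → vs G x u ≠ vs G x v := by
  unfold RR
  rw [Finset.prod_ne_zero_iff]
  constructor
  · intro h u v huv
    exact fac_ne_zero.1 (h s(u, v) (mem_edgeFinset.2 huv))
  · intro h e he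
    induction e with
    | _ u v => exact fac_ne_zero.2 (h u v (mem_edgeFinset.1 he))

lemma prod_edges_map {M : Type*} [CommMonoid M] (φ : G ≃g G) (F : Sym2 V → M) :
    ∏ e ∈ G.edgeFinset, F (e.map φ) = ∏ e ∈ G.edgeFinset, F e := by
  refine Finset.prod_nbij (Sym2.map φ) ?_ ?_ ?_ ?_
  · intro e he
    rw [mem_edgeFinset] at he ⊢
    exact (φ.mapEdgeSet ⟨e, he⟩).2
  · exact (Sym2.map.injective φ.injective).injOn
  · intro e he
    rw [Finset.mem_coe, mem_edgeFinset] at he
    refine ⟨e.map φ.symm, ?_, ?_⟩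
    · rw [Finset.mem_coe, mem_edgeFinset]
      exact (φ.symm.mapEdgeSet ⟨e, he⟩).2
    · rw [Sym2.map_map]
      have : (φ ∘ φ.symm : V → V) = id := by ext v; simp
      rw [this, Sym2.map_id]; rfl
  · intro e _; rfl

lemma vs_map {x y : Sym2 V → ℤ} (φ : G ≃g G) (h : ∀ e ∈ G.edgeSet, y (e.map φ) = x e) (v : V) :
    vs G y (φ v) = vs G x v := by
  unfold vs
  rw [← Equiv.sum_comp φ.toEquiv]
  refine Finset.sum_congr rfl fun u _ => ?_
  have hadj : G.Adj (φ v) (φ.toEquiv u) ↔ G.Adj v u := φ.map_adj_iff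
  by_cases hvu : G.Adj v u
  · rw [if_pos hvu, if_pos (hadj.2 hvu), ← h _ hvu]
    simp
  · rw [if_neg hvu, if_neg (fun hh => hvu (hadj.1 hh))]

lemma RR_map {x y : Sym2 V → ℤ} (φ : G ≃g G) (h : ∀ e ∈ G.edgeSet, y (e.map φ) = x e)
    (c : V → ℕ) (hc : ∀ v, c (φ v) = c v) : RR G c y = RR G c x := by
  unfold RR
  rw [← prod_edges_map φ]
  refine Finset.prod_congr rfl fun e _ => ?_
  induction e with
  | _ u v =>
    show (if c (φ u) < c (φ v) then vs G y (φ u) - vs G y (φ v)
      else if c (φ v) < c (φ u) then vs G y (φ v) - vs G y (φ u)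
      else (vs G y (φ u) - vs G y (φ v)) ^ 2) = (if c u < c v then vs G x u - vs G x v
      else if c v < c u then vs G x v - vs G x u else (vs G x u - vs G x v) ^ 2)
    rw [hc, hc, vs_map φ h, vs_map φ h]

lemma wt_map {x y : Sym2 V → ℤ} (φ : G ≃g G) (h : ∀ e ∈ G.edgeSet, y (e.map φ) = x e) :
    ∏ e ∈ G.edgeFinset, wt (y e) = ∏ e ∈ G.edgeFinset, wt (x e) := by
  rw [← prod_edges_map φ]
  refine Finset.prod_congr rfl fun e he => ?_
  rw [h e (mem_edgeFinset.1 he)]

lemma iso_of_grid (hU : UniquelyThreeWeightColourable G) {z : Sym2 V → ℤ} {x y : Sym2 V → ℤ}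
    (hx : x ∈ grid G.edgeFinset z) (hy : y ∈ grid G.edgeFinset z)
    (hx' : ∀ u v, G.Adj u v → vs G x u ≠ vs G x v)
    (hy' : ∀ u v, G.Adj u v → vs G y u ≠ vs G y v) :
    ∃ φ : G ≃g G, ∀ e ∈ G.edgeSet, y (e.map φ) = x e := by
  have key : ∀ t : Sym2 V → ℤ, t ∈ grid G.edgeFinset z →
      (∀ u v, G.Adj u v → vs G t u ≠ vs G t v) →
      (∀ e ∈ G.edgeSet, ((t e).toNat : ℤ) = t e) ∧
      IsThreeWeighting G (fun e => (t e).toNat) ∧ ProperBySums G (fun e => (t e).toNat) := by
    intro t ht ht'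
    rw [mem_grid] at ht
    have h1 : ∀ e ∈ G.edgeSet, ((t e).toNat : ℤ) = t e := by
      intro e he
      rcases ht.1 e (mem_edgeFinset.2 he) with h | h | h <;> rw [h] <;> rfl
    refine ⟨h1, ?_, ?_⟩
    · intro e he
      dsimp only
      rcases ht.1 e (mem_edgeFinset.2 he) with h | h | h
      · left; rw [h]; rfl
      · right; left; rw [h]; rfl
      · right; right; rw [h]; rfl
    · intro u v huv heq
      apply ht' u v huv
      rw [← vs_congr h1 u, ← vs_congr h1 v, vs_cast, vs_cast, heq]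
  obtain ⟨x1, x2, x3⟩ := key x hx hx'
  obtain ⟨y1, y2, y3⟩ := key y hy hy'
  obtain ⟨φ, hφ⟩ := hU.2 _ _ x2 x3 y2 y3
  refine ⟨φ, fun e he => ?_⟩
  have h1 : (y (e.map φ)).toNat = (x e).toNat := hφ e he
  have h2 : ((y (e.map φ)).toNat : ℤ) = y (e.map φ) := y1 _ (φ.mapEdgeSet ⟨e, he⟩).2
  rw [← x1 e he, ← h2, h1]

lemma exists_point (hU : UniquelyThreeWeightColourable G) :
    ∃ x ∈ grid G.edgeFinset (fun _ => 0), ∀ u v, G.Adj u v → vs G x u ≠ vs G x v := by
  obtain ⟨⟨w, hw1, hw2⟩, -⟩ := hU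
  refine ⟨fun e => if e ∈ G.edgeFinset then (w e : ℤ) else 0, ?_, ?_⟩
  · rw [mem_grid]
    constructor
    · intro e he
      rw [if_pos he]
      have := hw1 e (mem_edgeFinset.1 he)
      omega
    · intro e he
      rw [if_neg he]
  · intro u v huv heq
    apply hw2 u v huv
    have h : ∀ e ∈ G.edgeSet, (if e ∈ G.edgeFinset then (w e : ℤ) else 0) = (w e : ℤ) := by
      intro e he
      rw [if_pos (mem_edgeFinset.2 he)]
    rw [vs_congr h u, vs_congr h v, vs_cast, vs_cast] at heq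
    exact_mod_cast heq

/-- In a uniquely 3-weight colourable graph every edge joins two vertices of the same orbit of the
automorphism group. -/
theorem adj_orbit (hU : UniquelyThreeWeightColourable G) (O : V → Prop)
    (hO : ∀ (φ : G ≃g G) v, O (φ v) ↔ O v) {u v : V} (huv : G.Adj u v) (hu : O u) : O v := by
  by_contra hv
  obtain ⟨c, hc⟩ : ∃ c : V → ℕ, ∀ v, c v = if O v then 1 else 0 := ⟨_, fun _ => rfl⟩
  have hcφ : ∀ (φ : G ≃g G) v, c (φ v) = c v := by
    intro φ v
    rw [hc, hc]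
    by_cases h : O v
    · rw [if_pos h, if_pos ((hO φ v).2 h)]
    · rw [if_neg h, if_neg (fun k => h ((hO φ v).1 k))]
  have hne : c u ≠ c v := by
    rw [hc, hc, if_pos hu, if_neg hv]; norm_num
  have hdeg : ∑ e ∈ G.edgeFinset, kk c e < 2 * G.edgeFinset.card := by
    have : ∑ e ∈ G.edgeFinset, kk c e < ∑ e ∈ G.edgeFinset, 2 := by
      apply Finset.sum_lt_sum (fun e _ => kk_le c e)
      exact ⟨s(u, v), mem_edgeFinset.2 huv, by rw [kk_of_ne hne]; norm_num⟩
    rw [Finset.sum_const, smul_eq_mul] at this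
    omega
  have h0 := wsum_zero G.edgeFinset (fun _ => 0) _ _ (deg_RR (G := G) c) hdeg
  obtain ⟨x₀, hx₀, hx₀'⟩ := exists_point hU
  have hK : RR G c x₀ * ∏ e ∈ G.edgeFinset, wt (x₀ e) ≠ 0 := by
    apply mul_ne_zero ((RR_ne_zero c x₀).2 hx₀')
    rw [Finset.prod_ne_zero_iff]
    intro e _
    unfold wt
    split_ifs <;> norm_num
  have h1 : ∑ x ∈ grid G.edgeFinset (fun _ => 0), RR G c x * ∏ e ∈ G.edgeFinset, wt (x e) =
      ∑ x ∈ (grid G.edgeFinset (fun _ => 0)).filter (fun x => RR G c x ≠ 0),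
        RR G c x₀ * ∏ e ∈ G.edgeFinset, wt (x₀ e) := by
    rw [Finset.sum_filter]
    refine Finset.sum_congr rfl fun x hx => ?_
    by_cases hR : RR G c x = 0
    · rw [hR, zero_mul, if_neg (by simp)]
    · rw [if_pos hR]
      obtain ⟨φ, hφ⟩ := iso_of_grid hU hx₀ hx hx₀' ((RR_ne_zero c x).1 hR)
      rw [RR_map φ hφ c (hcφ φ), wt_map φ hφ]
  rw [h1, Finset.sum_const, nsmul_eq_mul] at h0
  rcases mul_eq_zero.1 h0 with h2 | h2
  · have h3 : ((grid G.edgeFinset (fun _ => 0)).filter (fun x => RR G c x ≠ 0)).card = 0 := by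
      exact_mod_cast h2
    rw [Finset.card_eq_zero] at h3
    have h4 : x₀ ∈ (grid G.edgeFinset (fun _ => 0)).filter (fun x => RR G c x ≠ 0) :=
      Finset.mem_filter.2 ⟨hx₀, (RR_ne_zero c x₀).2 hx₀'⟩
    rw [h3] at h4
    exact absurd h4 (Finset.notMem_empty _)
  · exact hK h2

/-- the automorphisms, as functions -/
noncomputable def autF (G : SimpleGraph V) : Finset (V → V) :=
  Finset.univ.filter (fun f => Injective f ∧ ∀ u v, G.Adj (f u) (f v) ↔ G.Adj u v)

lemma mem_autF {f : V → V} :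
    f ∈ autF G ↔ Injective f ∧ ∀ u v, G.Adj (f u) (f v) ↔ G.Adj u v := by
  unfold autF
  rw [Finset.mem_filter]
  simp

/-- the number of automorphisms is large -/
theorem aut_large (hU : UniquelyThreeWeightColourable G) :
    3 ^ G.edgeFinset.card ≤ (autF G).card ^ 2 := by
  obtain ⟨x₀, hx₀, hx₀'⟩ := exists_point hU
  obtain ⟨c, hc⟩ : ∃ c : V → ℕ, Injective c :=
    ⟨fun v => (Fintype.equivFin V v : ℕ), fun a b h => by
      simpa using Fin.val_injective h⟩
  have hdeg : ∑ e ∈ G.edgeFinset, kk c e = G.edgeFinset.card := by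
    rw [Finset.card_eq_sum_ones]
    refine Finset.sum_congr rfl fun e he => ?_
    induction e with
    | _ u v =>
      apply kk_of_ne
      exact fun h => (G.ne_of_adj (mem_edgeFinset.1 he)) (hc h)
  have h0 := nz_bound G.edgeFinset (fun _ => 0) _ _ (deg_RR (G := G) c)
    ⟨x₀, hx₀, (RR_ne_zero c x₀).2 hx₀'⟩
  rw [hdeg] at h0
  have h1 : 3 ^ G.edgeFinset.card ≤ (nz G.edgeFinset (fun _ => 0) (RR G c)) ^ 2 := by
    have e : (9 : ℕ) ^ G.edgeFinset.card = 3 ^ G.edgeFinset.card * 3 ^ G.edgeFinset.card := by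
      rw [← mul_pow]; norm_num
    rw [e] at h0
    exact Nat.le_of_mul_le_mul_right h0 (by positivity)
  refine h1.trans (Nat.pow_le_pow_left ?_ 2)
  unfold nz
  have hch : ∀ x : Sym2 V → ℤ, ∃ f : V → V, (x ∈ grid G.edgeFinset (fun _ => 0) →
      RR G c x ≠ 0 → f ∈ autF G ∧ ∀ e ∈ G.edgeSet, x (e.map f) = x₀ e) := by
    intro x
    by_cases hx : x ∈ grid G.edgeFinset (fun _ => 0) ∧ RR G c x ≠ 0
    · obtain ⟨φ, hφ⟩ := iso_of_grid hU hx₀ hx.1 hx₀' ((RR_ne_zero c x).1 hx.2)
      refine ⟨φ, fun _ _ => ⟨?_, hφ⟩⟩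
      rw [mem_autF]
      exact ⟨φ.injective, fun u v => φ.map_adj_iff⟩
    · exact ⟨id, fun h1 h2 => absurd ⟨h1, h2⟩ hx⟩
  choose F hF using hch
  apply Finset.card_le_card_of_injOn F
  · intro x hx
    have hx' := Finset.mem_filter.1 (Finset.mem_coe.1 hx)
    exact (hF x hx'.1 hx'.2).1
  · intro x hx y hy hxy
    have hx' := Finset.mem_filter.1 (Finset.mem_coe.1 hx)
    have hy' := Finset.mem_filter.1 (Finset.mem_coe.1 hy)
    obtain ⟨f1, f2⟩ := hF x hx'.1 hx'.2
    obtain ⟨g1, g2⟩ := hF y hy'.1 hy'.2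
    rw [← hxy] at g1 g2
    funext e
    by_cases he : e ∈ G.edgeSet
    · -- `e` is the image of an edge
      obtain ⟨i1, i2⟩ := mem_autF.1 f1
      have hsurj : Surjective (F x) := Finite.injective_iff_surjective.1 i1
      induction e with
      | _ u v =>
        obtain ⟨a, rfl⟩ := hsurj u
        obtain ⟨b, rfl⟩ := hsurj v
        have hab : G.Adj a b := (i2 a b).1 he
        have e1 := f2 s(a, b) hab
        have e2 := g2 s(a, b) hab
        rw [Sym2.map_mk] at e1 e2
        exact e1.trans e2.symm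
    · have he' : e ∉ G.edgeFinset := fun h => he (mem_edgeFinset.1 h)
      rw [(mem_grid.1 hx'.1).2 e he', (mem_grid.1 hy'.1).2 e he']

end Run7.h426.ThreeWeight
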